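import Mathlib

set_option autoImplicit false

/-! Digits, conditional expectations of an anchored interval indicator. -/

namespace Pool.Agent.H739R3.PLp

open Finset

variable {b : ℕ}

/-- integer formed by the first `k` digits -/
def Z (δ : ℕ → ZMod b) : ℕ → ℕ
  | 0 => 0
  | k + 1 => b * Z δ k + (δ k).val

/-- conditional measure of `{z < y}` given the first `k` digits -/
noncomputable def H (y : ℝ) (δ : ℕ → ZMod b) (k : ℕ) : ℝ :=
  max 0 (min 1 (y * (b : ℝ) ^ k - (Z δ k : ℝ)))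

noncomputable def G (y : ℝ) (δ : ℕ → ZMod b) : ℕ → ℝ
  | 0 => H y δ 0
  | k + 1 => H y δ (k + 1) - H y δ k

lemma Z_congr {δ δ' : ℕ → ZMod b} {k : ℕ} (h : ∀ l < k, δ l = δ' l) : Z δ k = Z δ' k := by
  induction k with
  | zero => rfl
  | succ k ih =>
    have h1 := ih (fun l hl => h l (by omega))
    have h2 := h k (by omega)
    simp [Z, h1, h2]

lemma H_congr {y : ℝ} {δ δ' : ℕ → ZMod b} {k : ℕ} (h : ∀ l < k, δ l = δ' l) :
    H y δ k = H y δ' k := by
  unfold H; rw [Z_congr h]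

lemma G_congr {y : ℝ} {δ δ' : ℕ → ZMod b} {k : ℕ} (h : ∀ l < k, δ l = δ' l) :
    G y δ k = G y δ' k := by
  cases k with
  | zero => exact H_congr h
  | succ k =>
    simp only [G]
    rw [H_congr h, H_congr (fun l hl => h l (by omega))]

lemma H_nonneg (y : ℝ) (δ : ℕ → ZMod b) (k : ℕ) : 0 ≤ H y δ k := le_max_left _ _

lemma H_le_one (y : ℝ) (δ : ℕ → ZMod b) (k : ℕ) : H y δ k ≤ 1 :=
  max_le zero_le_one (min_le_left _ _)

lemma abs_G_le (y : ℝ) (δ : ℕ → ZMod b) (k : ℕ) : |G y δ k| ≤ 1 := by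
  cases k with
  | zero => 
    simp only [G]
    rw [abs_of_nonneg (H_nonneg _ _ _)]; exact H_le_one _ _ _
  | succ k =>
    simp only [G]
    rw [abs_le]
    have h1 := H_nonneg y δ (k+1)
    have h2 := H_le_one y δ (k+1)
    have h3 := H_nonneg y δ k
    have h4 := H_le_one y δ k
    constructor <;> linarith

lemma sum_G (y : ℝ) (δ : ℕ → ZMod b) (m : ℕ) : ∑ k ∈ range (m + 1), G y δ k = H y δ m := by
  induction m with
  | zero => simp [G]
  | succ m ih =>
    rw [sum_range_succ, ih]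
    simp only [G]; ring

lemma clamp_sum (x : ℝ) (n : ℕ) :
    ∑ r ∈ range n, max 0 (min 1 (x - (r : ℝ))) = max 0 (min (n : ℝ) x) := by
  induction n with
  | zero => simp
  | succ n ih =>
    rw [sum_range_succ, ih]
    push_cast
    rcases le_total x n with h | h
    · rw [min_eq_right h, min_eq_right (by linarith : x - n ≤ 1), max_eq_left (by linarith : x - n ≤ 0),
        min_eq_right (by linarith : x ≤ n + 1), add_zero]
    · have hn : (0 : ℝ) ≤ n := Nat.cast_nonneg n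
      rw [min_eq_left h, max_eq_right hn]
      rcases le_total x (n + 1) with h' | h'
      · rw [min_eq_right (by linarith : x - n ≤ 1), min_eq_right h', max_eq_right (by linarith : 0 ≤ x - n),
          max_eq_right (by linarith : 0 ≤ x)]
        ring
      · rw [min_eq_left (by linarith : 1 ≤ x - n), min_eq_left h', max_eq_right (by norm_num : (0:ℝ) ≤ 1),
          max_eq_right (by linarith : (0:ℝ) ≤ n + 1)]

lemma sum_zmod_val [NeZero b] (f : ℕ → ℝ) : ∑ v : ZMod b, f v.val = ∑ r ∈ range b, f r := by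
  refine Finset.sum_nbij' (fun v : ZMod b => v.val) (fun r : ℕ => (r : ZMod b)) ?_ ?_ ?_ ?_ ?_
  · intro v _; simp [ZMod.val_lt]
  · intro r _; simp
  · intro v _; simp
  · intro r hr; exact ZMod.val_cast_of_lt (mem_range.mp hr)
  · intro v _; rfl

/-- the martingale property of `H` -/
lemma sum_H_succ [NeZero b] (y : ℝ) (δ : ℕ → ZMod b) (k : ℕ) :
    ∑ v : ZMod b, H y (Function.update δ k v) (k + 1) = b * H y δ k := by
  have hb : (0 : ℝ) < b := by exact_mod_cast Nat.pos_of_ne_zero (NeZero.ne b)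
  have h1 : ∀ v : ZMod b, H y (Function.update δ k v) (k + 1) =
      max 0 (min 1 ((b : ℝ) * (y * (b:ℝ) ^ k - (Z δ k : ℝ)) - (v.val : ℝ))) := by
    intro v
    unfold H
    have hZ : Z (Function.update δ k v) (k+1) = b * Z δ k + v.val := by
      have : Z (Function.update δ k v) k = Z δ k :=
        Z_congr (fun l hl => by rw [Function.update_of_ne (by omega)])
      simp [Z, this]
    rw [hZ]
    push_cast
    congr 2
    ring
  rw [sum_congr rfl (fun v _ => h1 v)]
  rw [sum_zmod_val (fun r => max 0 (min 1 ((b : ℝ) * (y * (b:ℝ) ^ k - (Z δ k : ℝ)) - (r : ℝ)))), clamp_sum]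
  unfold H
  rw [mul_max_of_nonneg _ _ hb.le, mul_min_of_nonneg _ _ hb.le]
  simp

lemma sum_G_update [NeZero b] (y : ℝ) (δ : ℕ → ZMod b) (k : ℕ) :
    ∑ v : ZMod b, G y (Function.update δ k v) (k + 1) = 0 := by
  simp only [G]
  rw [sum_sub_distrib, sum_H_succ]
  have : ∀ v : ZMod b, H y (Function.update δ k v) k = H y δ k := fun v =>
    H_congr (fun l hl => by rw [Function.update_of_ne (by omega)])
  rw [sum_congr rfl (fun v _ => this v)]
  simp [ZMod.card]

/-- shift version -/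
lemma sum_G_shift [NeZero b] (y : ℝ) (δ : ℕ → ZMod b) (k : ℕ) (η : ZMod b → ℕ → ZMod b)
    (h1 : ∀ t, ∀ l < k, η t l = δ l) (h2 : ∀ t, η t k = δ k + t) :
    ∑ t : ZMod b, G y (η t) (k + 1) = 0 := by
  have h3 : ∀ t, G y (η t) (k + 1) = G y (Function.update δ k (δ k + t)) (k + 1) := by
    intro t
    apply G_congr
    intro l hl
    by_cases hlk : l = k
    · subst hlk; simp [h2]
    · rw [Function.update_of_ne hlk]; exact h1 t l (by omega)
  rw [sum_congr rfl (fun t _ => h3 t)]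
  have h4 := Equiv.sum_comp (Equiv.addLeft (δ k)) (fun v => G y (Function.update δ k v) (k + 1))
  simp only [Equiv.coe_addLeft] at h4
  rw [h4]
  exact sum_G_update y δ k

/-- digits of `y` -/
noncomputable def tau (b : ℕ) (y : ℝ) (l : ℕ) : ZMod b :=
  ((⌊y * (b:ℝ) ^ (l + 1)⌋ - b * ⌊y * (b:ℝ) ^ l⌋ : ℤ) : ZMod b)

lemma floor_of_frac {y : ℝ} {δ : ℕ → ZMod b} [NeZero b] {k : ℕ}
    (h0 : 0 ≤ y * (b:ℝ) ^ k - (Z δ k : ℝ)) (h1 : y * (b:ℝ) ^ k - (Z δ k : ℝ) < 1) :
    ∀ l ≤ k, (0 ≤ y * (b:ℝ) ^ l - (Z δ l : ℝ) ∧ y * (b:ℝ) ^ l - (Z δ l : ℝ) < 1) := by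
  have hb : (0 : ℝ) < b := by exact_mod_cast Nat.pos_of_ne_zero (NeZero.ne b)
  induction k with
  | zero => intro l hl; obtain rfl : l = 0 := by omega
            exact ⟨h0, h1⟩
  | succ k ih =>
    have hv : ((δ k).val : ℝ) + 1 ≤ b := by exact_mod_cast ZMod.val_lt (δ k)
    have hv0 : (0:ℝ) ≤ ((δ k).val : ℝ) := Nat.cast_nonneg _
    have e : y * (b:ℝ) ^ (k+1) - (Z δ (k+1) : ℝ) = b * (y * (b:ℝ) ^ k - (Z δ k : ℝ)) - ((δ k).val : ℝ) := by
      simp only [Z]; push_cast; ring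
    have hk0 : 0 ≤ y * (b:ℝ) ^ k - (Z δ k : ℝ) := by
      by_contra hcon
      push Not at hcon
      have := mul_neg_of_pos_of_neg hb hcon
      rw [e] at h0; linarith
    have hk1 : y * (b:ℝ) ^ k - (Z δ k : ℝ) < 1 := by
      by_contra hcon
      push Not at hcon
      have := mul_le_mul_of_nonneg_left hcon hb.le
      rw [e] at h1; linarith
    intro l hl
    rcases Nat.lt_or_ge l (k+1) with h | h
    · exact ih hk0 hk1 l (by omega)
    · obtain rfl : l = k + 1 := by omega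
      exact ⟨h0, h1⟩

lemma G_eq_zero_of_not_match [NeZero b] {y : ℝ} {δ : ℕ → ZMod b} {k : ℕ}
    (h : ∃ l < k, δ l ≠ tau b y l) : G y δ (k + 1) = 0 := by
  have hb : (0 : ℝ) < b := by exact_mod_cast Nat.pos_of_ne_zero (NeZero.ne b)
  have hv : ((δ k).val : ℝ) + 1 ≤ b := by exact_mod_cast ZMod.val_lt (δ k)
  have hv0 : (0:ℝ) ≤ ((δ k).val : ℝ) := Nat.cast_nonneg _
  have e : y * (b:ℝ) ^ (k+1) - (Z δ (k+1) : ℝ) = b * (y * (b:ℝ) ^ k - (Z δ k : ℝ)) - ((δ k).val : ℝ) := by
    simp only [Z]; push_cast; ring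
  simp only [G, H]
  rw [e]
  rcases lt_or_ge (y * (b:ℝ) ^ k - (Z δ k : ℝ)) 0 with h0 | h0
  · have := mul_neg_of_pos_of_neg hb h0
    rw [min_eq_right (by linarith), max_eq_left (by linarith), min_eq_right (by linarith),
      max_eq_left (by linarith)]; ring
  · rcases lt_or_ge (y * (b:ℝ) ^ k - (Z δ k : ℝ)) 1 with h1 | h1
    · exfalso
      obtain ⟨l, hl, hne⟩ := h
      apply hne
      have hf := floor_of_frac h0 h1
      have hl0 := hf l (by omega)
      have hl1 := hf (l+1) (by omega)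
      have e0 : ⌊y * (b:ℝ) ^ l⌋ = (Z δ l : ℤ) := by
        rw [Int.floor_eq_iff]; push_cast; constructor <;> linarith [hl0.1, hl0.2]
      have e1 : ⌊y * (b:ℝ) ^ (l+1)⌋ = (Z δ (l+1) : ℤ) := by
        rw [Int.floor_eq_iff]; push_cast; constructor <;> linarith [hl1.1, hl1.2]
      unfold tau
      rw [e0, e1]
      simp [Z]
    · have := mul_le_mul_of_nonneg_left h1 hb.le
      rw [min_eq_left (by linarith), max_eq_right (by norm_num), min_eq_left (by linarith),
        max_eq_right (by norm_num)]; ring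

end Pool.Agent.H739R3.PLp
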