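import Mathlib

set_option autoImplicit false

/-! 2-smoothness of `L_{2q}` and iteration over the coordinates. -/

namespace Pool.Agent.H739R3.PLp

open Finset

lemma abs_pow_mix (s t : ℝ) (n j : ℕ) (hj : j ≤ n) :
    |t| ^ (j + 2) * |s| ^ (n - j) ≤ |s| ^ n * |t| ^ 2 + |t| ^ (n + 2) := by
  have hs := abs_nonneg s
  have ht := abs_nonneg t
  rcases le_total |t| |s| with h | h
  · have h1 : |t| ^ (j + 2) * |s| ^ (n - j) ≤ |s| ^ n * |t| ^ 2 := by
      calc |t| ^ (j + 2) * |s| ^ (n - j) = (|t| ^ j * |s| ^ (n - j)) * |t| ^ 2 := by ring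
        _ ≤ (|s| ^ j * |s| ^ (n - j)) * |t| ^ 2 := by gcongr
        _ = |s| ^ n * |t| ^ 2 := by rw [← pow_add]; congr 2; omega
    have : 0 ≤ |t| ^ (n + 2) := by positivity
    linarith
  · have h1 : |t| ^ (j + 2) * |s| ^ (n - j) ≤ |t| ^ (n + 2) := by
      calc |t| ^ (j + 2) * |s| ^ (n - j) ≤ |t| ^ (j + 2) * |t| ^ (n - j) := by gcongr
        _ = |t| ^ (n + 2) := by rw [← pow_add]; congr 1; omega
    have : 0 ≤ |s| ^ n * |t| ^ 2 := by positivity
    linarith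

lemma pow_expand (n : ℕ) (hn : Even n) (s t : ℝ) :
    (s + t) ^ (n + 2) ≤ s ^ (n + 2) + (n + 2 : ℕ) * s ^ (n + 1) * t
      + 2 ^ (n + 2) * (s ^ n * t ^ 2 + t ^ (n + 2)) := by
  have hn2 : Even (n + 2) := hn.add (by decide)
  rw [add_comm s t, add_pow, sum_range_succ', sum_range_succ']
  have h1 : ∑ k ∈ range (n + 1), t ^ (k + 1 + 1) * s ^ (n + 2 - (k + 1 + 1)) * ((n + 2).choose (k + 1 + 1) : ℝ) ≤
      2 ^ (n + 2) * (s ^ n * t ^ 2 + t ^ (n + 2)) := by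
    have h2 : ∀ k ∈ range (n + 1), t ^ (k + 1 + 1) * s ^ (n + 2 - (k + 1 + 1)) * ((n + 2).choose (k + 1 + 1) : ℝ) ≤
        (s ^ n * t ^ 2 + t ^ (n + 2)) * ((n + 2).choose (k + 1 + 1) : ℝ) := by
      intro k hk
      have hk' : k ≤ n := by have := mem_range.mp hk; omega
      apply mul_le_mul_of_nonneg_right _ (Nat.cast_nonneg _)
      have h3 := abs_pow_mix s t n k hk'
      have e1 : |s| ^ n = s ^ n := hn.pow_abs s
      have e2 : |t| ^ (n + 2) = t ^ (n + 2) := hn2.pow_abs t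
      have e3 : |t| ^ 2 = t ^ 2 := sq_abs t
      rw [e1, e2, e3] at h3
      refine le_trans ?_ h3
      have e4 : n + 2 - (k + 1 + 1) = n - k := by omega
      rw [e4]
      calc t ^ (k + 1 + 1) * s ^ (n - k) ≤ |t ^ (k + 1 + 1) * s ^ (n - k)| := le_abs_self _
        _ = |t| ^ (k + 2) * |s| ^ (n - k) := by rw [abs_mul, abs_pow, abs_pow]
    refine le_trans (sum_le_sum h2) ?_
    rw [← mul_sum, mul_comm]
    apply mul_le_mul_of_nonneg_right
    · have h4 : ∑ k ∈ range (n + 1), ((n + 2).choose (k + 1 + 1) : ℝ) ≤ ∑ k ∈ range (n + 2 + 1), ((n + 2).choose k : ℝ) := by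
        rw [sum_range_succ' (fun k => ((n + 2).choose k : ℝ)) (n+2), sum_range_succ' (fun k => ((n + 2).choose (k+1) : ℝ)) (n+1)]
        have a1 : (0:ℝ) ≤ ((n + 2).choose (0 + 1) : ℝ) := Nat.cast_nonneg _
        have a2 : (0:ℝ) ≤ ((n + 2).choose 0 : ℝ) := Nat.cast_nonneg _
        linarith
      refine le_trans h4 ?_
      have := Nat.sum_range_choose (n + 2)
      exact_mod_cast this.le
    · have a1 : 0 ≤ s ^ n := hn.pow_nonneg s
      have a2 : 0 ≤ t ^ (n + 2) := hn2.pow_nonneg t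
      positivity
  have h5 : t ^ (0 + 1) * s ^ (n + 2 - (0 + 1)) * ((n + 2).choose (0 + 1) : ℝ) = (n + 2 : ℕ) * s ^ (n + 1) * t := by
    simp only [zero_add, Nat.choose_one_right, pow_one]
    have : n + 2 - 1 = n + 1 := by omega
    rw [this]; ring
  have h6 : t ^ 0 * s ^ (n + 2 - 0) * ((n + 2).choose 0 : ℝ) = s ^ (n + 2) := by simp
  rw [h5, h6]
  linarith

variable {Ω : Type*} [Fintype Ω]

def Bd (q : ℕ) (f : Ω → ℝ) (A : ℝ) : Prop := ∑ σ, f σ ^ (2 * q) ≤ (Fintype.card Ω : ℝ) * A ^ q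

lemma Bd.mono {q : ℕ} {f : Ω → ℝ} {A B : ℝ} (h : Bd q f A) (hA : 0 ≤ A) (hAB : A ≤ B) : Bd q f B := by
  unfold Bd at *
  refine le_trans h ?_
  gcongr

lemma Bd_zero {q : ℕ} (hq : 1 ≤ q) {A : ℝ} (hA : 0 ≤ A) : Bd q (fun _ : Ω => (0:ℝ)) A := by
  unfold Bd
  have : (0 : ℝ) ^ (2 * q) = 0 := zero_pow (by omega)
  simp only [this, sum_const_zero]
  positivity

lemma eq_zero_of_Bd_zero {q : ℕ} (hq : 1 ≤ q) {f : Ω → ℝ} (h : Bd q f 0) : ∀ σ, f σ = 0 := by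
  unfold Bd at h
  rw [zero_pow (by omega), mul_zero] at h
  intro σ
  have h1 : f σ ^ (2 * q) ≤ 0 := by
    refine le_trans ?_ h
    exact single_le_sum (f := fun σ => f σ ^ (2*q)) (fun i _ => (even_two_mul q).pow_nonneg _) (mem_univ σ)
  have h2 : f σ ^ (2 * q) = 0 := le_antisymm h1 ((even_two_mul q).pow_nonneg _)
  exact (pow_eq_zero_iff (by omega)).mp h2

lemma smooth {q : ℕ} (hq : 1 ≤ q) {f g : Ω → ℝ} {A B : ℝ} (hA : 0 ≤ A) (hB : 0 ≤ B)
    (hf : Bd q f A) (hg : Bd q g B) (ho : ∑ σ, f σ ^ (2 * q - 1) * g σ = 0) :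
    Bd q (fun σ => f σ + g σ) (A + 4 ^ (q + 1) * B) := by
  rcases hA.eq_or_lt with hA0 | hA0
  · subst hA0
    have hf0 := eq_zero_of_Bd_zero hq hf
    have : (fun σ => f σ + g σ) = g := by funext σ; simp [hf0 σ]
    rw [this]
    apply hg.mono hB
    have : (1:ℝ) ≤ 4 ^ (q + 1) := one_le_pow₀ (by norm_num)
    nlinarith
  rcases hB.eq_or_lt with hB0 | hB0
  · subst hB0
    have hg0 := eq_zero_of_Bd_zero hq hg
    have : (fun σ => f σ + g σ) = f := by funext σ; simp [hg0 σ]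
    rw [this]; simpa using hf
  -- main case
  obtain ⟨r, rfl⟩ : ∃ r, q = r + 1 := ⟨q - 1, by omega⟩
  have e1 : 2 * (r + 1) = 2 * r + 2 := by ring
  have e2 : 2 * (r + 1) - 1 = 2 * r + 1 := by omega
  unfold Bd at *
  rw [e2] at ho
  rw [e1] at *
  set n : ℝ := (Fintype.card Ω : ℝ) with hn
  have hn0 : 0 ≤ n := Nat.cast_nonneg _
  have hmix : ∑ σ, f σ ^ (2 * r) * g σ ^ 2 ≤ n * (2 * (A ^ r * B)) := by
    have h1 : ∀ σ, f σ ^ (2 * r) * g σ ^ 2 ≤ A ^ r * B * (f σ ^ (2 * r + 2) / A ^ (r+1) + g σ ^ (2 * r + 2) / B ^ (r+1)) := by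
      intro σ
      set x := f σ ^ 2 / A with hx
      set y := g σ ^ 2 / B with hy
      have hx0 : 0 ≤ x := by positivity
      have hy0 : 0 ≤ y := by positivity
      have h2 : x ^ r * y ≤ x ^ (r+1) + y ^ (r+1) := by
        rcases le_total x y with h | h
        · calc x ^ r * y ≤ y ^ r * y := by gcongr
            _ = y ^ (r+1) := by ring
            _ ≤ _ := by have : 0 ≤ x ^ (r+1) := by positivity
                        linarith
        · calc x ^ r * y ≤ x ^ r * x := by gcongr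
            _ = x ^ (r+1) := by ring
            _ ≤ _ := by have : 0 ≤ y ^ (r+1) := by positivity
                        linarith
      have h3 : f σ ^ (2 * r) * g σ ^ 2 = A ^ r * B * (x ^ r * y) := by
        rw [hx, hy, div_pow]; field_simp; ring
      have h4 : f σ ^ (2 * r + 2) / A ^ (r+1) = x ^ (r+1) := by
        rw [hx, div_pow, ← pow_mul]; congr 2
      have h5 : g σ ^ (2 * r + 2) / B ^ (r+1) = y ^ (r+1) := by
        rw [hy, div_pow, ← pow_mul]; congr 2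
      rw [h3, h4, h5]
      exact mul_le_mul_of_nonneg_left h2 (by positivity)
    refine le_trans (sum_le_sum (fun σ _ => h1 σ)) ?_
    rw [← mul_sum, sum_add_distrib, ← sum_div, ← sum_div]
    have h6 : (∑ σ, f σ ^ (2 * r + 2)) / A ^ (r+1) ≤ n := by
      rw [div_le_iff₀ (by positivity)]; exact hf
    have h7 : (∑ σ, g σ ^ (2 * r + 2)) / B ^ (r+1) ≤ n := by
      rw [div_le_iff₀ (by positivity)]; exact hg
    calc A ^ r * B * ((∑ σ, f σ ^ (2 * r + 2)) / A ^ (r+1) + (∑ σ, g σ ^ (2 * r + 2)) / B ^ (r+1)) 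
        ≤ A ^ r * B * (n + n) := by gcongr
      _ = n * (2 * (A ^ r * B)) := by ring
  have h8 : ∑ σ, (f σ + g σ) ^ (2 * r + 2) ≤ ∑ σ, (f σ ^ (2 * r + 2) + ((2 * r + 2 : ℕ) : ℝ) * (f σ ^ (2 * r + 1) * g σ)
      + 2 ^ (2 * r + 2) * (f σ ^ (2 * r) * g σ ^ 2 + g σ ^ (2 * r + 2))) := by
    apply sum_le_sum
    intro σ _
    have := pow_expand (2 * r) (even_two_mul r) (f σ) (g σ)
    linarith
  refine le_trans h8 ?_
  rw [sum_add_distrib, sum_add_distrib, ← mul_sum, ← mul_sum, ho, sum_add_distrib]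
  set D : ℝ := 4 ^ (r + 1 + 1) * B with hD
  have hD0 : 0 < D := by positivity
  have h9 : A ^ (r+1) + D * (A ^ r + D ^ r) / 2 ≤ (A + D) ^ (r+1) := by
    have a1 : A ^ r ≤ (A + D) ^ r := by gcongr; linarith
    have a2 : D ^ r ≤ (A + D) ^ r := by gcongr; linarith
    have a3 : D * (A ^ r + D ^ r) ≤ D * (2 * (A + D) ^ r) := by
      apply mul_le_mul_of_nonneg_left _ hD0.le; linarith
    calc A ^ (r+1) + D * (A ^ r + D ^ r) / 2 ≤ A ^ r * A + D * (A + D) ^ r := by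
          rw [pow_succ]; linarith
      _ ≤ (A + D) ^ r * A + D * (A + D) ^ r := by gcongr
      _ = (A + D) ^ (r+1) := by ring
  have h10 : (2:ℝ) ^ (2 * r + 2) = 4 ^ (r+1) := by
    rw [show 2 * r + 2 = 2 * (r + 1) by ring, pow_mul]; norm_num
  rw [h10]
  have h11 : (4:ℝ) ^ (r+1) * (2 * (A ^ r * B) + B ^ (r+1)) ≤ D * (A ^ r + D ^ r) / 2 := by
    have b1 : B ≤ D := by
      rw [hD]; have : (1:ℝ) ≤ 4 ^ (r + 1 + 1) := one_le_pow₀ (by norm_num)
      nlinarith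
    have b2 : B ^ r ≤ D ^ r := by gcongr
    have b3 : (4:ℝ) ^ (r+1) * B = D / 4 := by rw [hD, pow_succ]; ring
    have b4 : (4:ℝ) ^ (r+1) * (2 * (A ^ r * B) + B ^ (r+1)) = (4:ℝ) ^ (r+1) * B * (2 * A ^ r + B ^ r) := by ring
    rw [b4, b3]
    have b5 : 0 ≤ A ^ r := by positivity
    have b6 : 0 ≤ D ^ r := by positivity
    nlinarith [mul_nonneg hD0.le (sub_nonneg.mpr b2), mul_nonneg hD0.le b5, mul_nonneg hD0.le b6]
  have h12 : (4:ℝ) ^ (r+1) * (∑ σ, f σ ^ (2 * r) * g σ ^ 2 + ∑ σ, g σ ^ (2 * r + 2)) ≤ 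
      (4:ℝ) ^ (r+1) * (n * (2 * (A ^ r * B)) + n * B ^ (r+1)) := by
    gcongr
    exact hg
  have hf' : ∑ σ, f σ ^ (2 * r + 2) ≤ n * A ^ (r+1) := hf
  calc ∑ σ, f σ ^ (2 * r + 2) + ((2 * r + 2 : ℕ) : ℝ) * 0 + (4:ℝ) ^ (r+1) * (∑ σ, f σ ^ (2 * r) * g σ ^ 2 + ∑ σ, g σ ^ (2 * r + 2)) 
      ≤ n * A ^ (r+1) + 0 + (4:ℝ) ^ (r+1) * (n * (2 * (A ^ r * B)) + n * B ^ (r+1)) := by
        rw [mul_zero]
        linarith
    _ = n * (A ^ (r+1) + (4:ℝ) ^ (r+1) * (2 * (A ^ r * B) + B ^ (r+1))) := by ring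
    _ ≤ n * (A ^ (r+1) + D * (A ^ r + D ^ r) / 2) := by gcongr
    _ ≤ n * (A + D) ^ (r+1) := by gcongr

/-- one-parameter martingale inequality -/
lemma Bd_sum {q : ℕ} (hq : 1 ≤ q) (D : ℕ → Ω → ℝ) (B : ℕ → ℝ) (M : ℕ)
    (hB : ∀ a < M, 0 ≤ B a) (hD : ∀ a < M, Bd q (D a) (B a))
    (ho : ∀ a < M, ∑ σ, (∑ a' ∈ range a, D a' σ) ^ (2 * q - 1) * D a σ = 0) :
    Bd q (fun σ => ∑ a ∈ range M, D a σ) (4 ^ (q + 1) * ∑ a ∈ range M, B a) := by
  induction M with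
  | zero => 
    simp only [range_zero, sum_empty, mul_zero]
    exact Bd_zero hq le_rfl
  | succ M ih =>
    have ih' := ih (fun a ha => hB a (by omega)) (fun a ha => hD a (by omega)) (fun a ha => ho a (by omega))
    have h1 := smooth hq (mul_nonneg (by positivity) (sum_nonneg (fun a ha => hB a (by have := mem_range.mp ha; omega)))) 
      (hB M (by omega)) ih' (hD M (by omega)) (ho M (by omega))
    have h2 : (fun σ => ∑ a ∈ range (M + 1), D a σ) = (fun σ => ∑ a ∈ range M, D a σ + D M σ) := by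
      funext σ; rw [sum_range_succ]
    rw [h2, sum_range_succ, mul_add]
    exact h1

end Pool.Agent.H739R3.PLp
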