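import Mathlib
import Pool.Agent.H739R3.PLp.Moment

set_option autoImplicit false

/-! Iteration of the one-parameter inequality over the coordinates. -/

namespace Pool.Agent.H739R3.PLp

open Finset

variable {b d m : ℕ}

/-- index box -/
def box (m : ℕ) (V : Finset (Fin d)) (κ : Fin d → ℕ) : Finset (Fin d → ℕ) :=
  Fintype.piFinset (fun i => if i ∈ V then range (m + 1) else {κ i})

lemma mem_box {V : Finset (Fin d)} {κ p : Fin d → ℕ} :
    p ∈ box m V κ ↔ ∀ i, (i ∈ V → p i ≤ m) ∧ (i ∉ V → p i = κ i) := by
  simp only [box, Fintype.mem_piFinset]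
  apply forall_congr'
  intro i
  by_cases h : i ∈ V
  · simp [h]
  · simp [h]

lemma box_empty (κ : Fin d → ℕ) : box m ∅ κ = {κ} := by
  ext p; rw [mem_box]; simp [funext_iff]

lemma box_sum {M : Type*} [AddCommMonoid M] {V : Finset (Fin d)} {i : Fin d} (hi : i ∉ V) (κ : Fin d → ℕ)
    (f : (Fin d → ℕ) → M) :
    ∑ p ∈ box m (insert i V) κ, f p = ∑ a ∈ range (m + 1), ∑ p ∈ box m V (Function.update κ i a), f p := by
  rw [← Finset.sum_fiberwise_of_maps_to (g := fun p : Fin d → ℕ => p i) (t := range (m + 1))]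
  · apply sum_congr rfl
    intro a ha
    have ha' : a ≤ m := by have := mem_range.mp ha; omega
    apply sum_congr _ (fun _ _ => rfl)
    ext p
    rw [mem_filter, mem_box, mem_box]
    constructor
    · rintro ⟨h1, h2⟩ j
      by_cases hj : j = i
      · subst hj; simp [hi, h2]
      · refine ⟨fun h => (h1 j).1 (mem_insert_of_mem h), fun h => ?_⟩
        rw [Function.update_of_ne hj]
        exact (h1 j).2 (by simp [hj, h])
    · intro h
      have hpi : p i = a := by have := (h i).2 hi; simpa using this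
      refine ⟨fun j => ?_, hpi⟩
      by_cases hj : j = i
      · subst hj; simp [hpi, ha']
      · refine ⟨fun h' => (h j).1 ?_, fun h' => ?_⟩
        · simpa [hj] using h'
        · have := (h j).2 (by intro hc; exact h' (mem_insert_of_mem hc))
          rwa [Function.update_of_ne hj] at this
  · intro p hp
    have := (mem_box.mp hp i).1 (mem_insert_self _ _)
    exact mem_range.mpr (by omega)

variable [NeZero b]

lemma orth {ι : Type*} [Fintype ι] [DecidableEq ι] (f g : (ι → ZMod b) → ℝ) (w : ι)
    (hf : ∀ (t : ZMod b) (σ : ι → ZMod b), f (σ + Pi.single w t) = f σ)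
    (hg : ∀ σ : ι → ZMod b, ∑ t : ZMod b, g (σ + Pi.single w t) = 0) : ∑ σ, f σ * g σ = 0 := by
  have h1 : ∀ t : ZMod b, ∑ σ, f σ * g σ = ∑ σ, f σ * g (σ + Pi.single w t) := by
    intro t
    have h := Equiv.sum_comp (Equiv.addRight (Pi.single w t : ι → ZMod b)) (fun σ => f σ * g σ)
    simp only [Equiv.coe_addRight] at h
    rw [← h]
    exact sum_congr rfl (fun σ _ => by rw [hf])
  have h2 : ∑ _t : ZMod b, ∑ σ, f σ * g σ = 0 := by
    rw [sum_congr rfl (fun t _ => h1 t), sum_comm]
    apply sum_eq_zero
    intro σ _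
    rw [← mul_sum, hg, mul_zero]
  rw [sum_const, card_univ, ZMod.card, nsmul_eq_mul] at h2
  have hb : (b : ℝ) ≠ 0 := by exact_mod_cast NeZero.ne b
  exact (mul_eq_zero.mp h2).resolve_left hb

theorem iter {q : ℕ} (hq : 1 ≤ q) (T : (Fin d → ℕ) → ((Fin d × Fin m → ZMod b) → ℝ)) (B : (Fin d → ℕ) → ℝ)
    (ha : ∀ p : Fin d → ℕ, ∀ w : Fin d × Fin m, p w.1 ≤ w.2 →
      ∀ (t : ZMod b) (σ : Fin d × Fin m → ZMod b), T p (σ + Pi.single w t) = T p σ)
    (hb : ∀ p : Fin d → ℕ, ∀ w : Fin d × Fin m, p w.1 = w.2 + 1 →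
      ∀ σ : Fin d × Fin m → ZMod b, ∑ t : ZMod b, T p (σ + Pi.single w t) = 0)
    (hB : ∀ p, 0 ≤ B p) (hT : ∀ p : Fin d → ℕ, (∀ i, p i ≤ m) → Bd q (T p) (B p))
    (V : Finset (Fin d)) (κ : Fin d → ℕ) (hκ : ∀ i, κ i ≤ m) :
    Bd q (fun σ => ∑ p ∈ box m V κ, T p σ) ((4 ^ (q + 1)) ^ V.card * ∑ p ∈ box m V κ, B p) := by
  classical
  induction V using Finset.induction_on generalizing κ with
  | empty => 
    rw [box_empty]
    simp only [sum_singleton, card_empty, pow_zero, one_mul]
    exact hT κ hκ
  | insert i V hi ih =>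
    rw [card_insert_of_notMem hi, pow_succ, mul_comm ((4 ^ (q + 1)) ^ V.card), mul_assoc]
    have e1 : (fun σ => ∑ p ∈ box m (insert i V) κ, T p σ) =
        fun σ => ∑ a ∈ range (m + 1), ∑ p ∈ box m V (Function.update κ i a), T p σ := by
      funext σ; rw [box_sum hi]
    rw [e1, box_sum hi, mul_sum]
    apply Bd_sum hq (fun a σ => ∑ p ∈ box m V (Function.update κ i a), T p σ)
      (fun a => (4 ^ (q + 1)) ^ V.card * ∑ p ∈ box m V (Function.update κ i a), B p)
    · intro a _; exact mul_nonneg (by positivity) (sum_nonneg (fun p _ => hB p))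
    · intro a ha'
      apply ih
      intro j
      by_cases hj : j = i
      · subst hj; simp; omega
      · rw [Function.update_of_ne hj]; exact hκ j
    · intro a ha'
      rcases Nat.eq_zero_or_pos a with rfl | hpos
      · simp only [range_zero, sum_empty]
        have : (0:ℝ) ^ (2 * q - 1) = 0 := zero_pow (by omega)
        simp [this]
      · have hlt : a - 1 < m := by omega
        apply orth _ _ (i, ⟨a - 1, hlt⟩)
        · intro t σ
          congr 1
          apply sum_congr rfl
          intro a' ha''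
          apply sum_congr rfl
          intro p hp
          apply ha
          have : p i = a' := by
            have := (mem_box.mp hp i).2 hi
            simpa using this
          simp only [this]
          have := mem_range.mp ha''
          omega
        · intro σ
          rw [sum_comm]
          apply sum_eq_zero
          intro p hp
          apply hb
          have : p i = a := by
            have := (mem_box.mp hp i).2 hi
            simpa using this
          simp only [this]
          omega

/-- counting part -/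
lemma tail_sum (ρ : ℝ) (h0 : 0 ≤ ρ) (h1 : ρ < 1) (d m s M : ℕ) :
    ∑ a ∈ range M, (if m < a + s then ρ ^ (a + s - d - m) else 0) ≤ d + 1 / (1 - ρ) := by
  set g : ℕ → ℝ := fun j => if m < j then ρ ^ (j - d - m) else 0 with hg
  have hg0 : ∀ j, 0 ≤ g j := by intro j; simp only [hg]; split_ifs <;> positivity
  have e1 : ∑ a ∈ range M, (if m < a + s then ρ ^ (a + s - d - m) else 0) ≤ ∑ j ∈ range (s + M), g j := by
    rw [sum_range_add]
    have : ∑ a ∈ range M, (if m < a + s then ρ ^ (a + s - d - m) else 0) = ∑ x ∈ range M, g (s + x) := by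
      apply sum_congr rfl; intro a _; simp only [hg]; rw [add_comm s a]
    rw [this]
    have := sum_nonneg (fun j (_ : j ∈ range s) => hg0 j)
    linarith
  refine le_trans e1 ?_
  have e2 : ∑ j ∈ range (s + M), g j ≤ ∑ j ∈ range (m + 1 + (d + (s + M))), g j := by
    apply sum_le_sum_of_subset_of_nonneg
    · apply range_subset_range.mpr; omega
    · intro j _ _; exact hg0 j
  refine le_trans e2 ?_
  rw [sum_range_add _ (m + 1) (d + (s + M)), sum_range_add _ d (s + M)]
  have e3 : ∑ x ∈ range (m + 1), g x = 0 := by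
    apply sum_eq_zero; intro j hj
    have := mem_range.mp hj
    simp only [hg]; rw [if_neg (by omega)]
  have e4 : ∑ x ∈ range d, g (m + 1 + x) ≤ d := by
    calc ∑ x ∈ range d, g (m + 1 + x) ≤ ∑ x ∈ range d, (1:ℝ) := by
          apply sum_le_sum; intro j _
          simp only [hg]; split_ifs
          · exact pow_le_one₀ h0 h1.le
          · norm_num
      _ = d := by simp
  have e5 : ∑ x ∈ range (s + M), g (m + 1 + (d + x)) ≤ 1 / (1 - ρ) := by
    calc ∑ x ∈ range (s + M), g (m + 1 + (d + x)) ≤ ∑ x ∈ range (s + M), ρ ^ x := by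
          apply sum_le_sum; intro x _
          simp only [hg]; rw [if_pos (by omega)]
          apply pow_le_pow_of_le_one h0 h1.le; omega
      _ ≤ ∑' x : ℕ, ρ ^ x := (summable_geometric_of_lt_one h0 h1).sum_le_tsum _ (fun x _ => by positivity)
      _ = 1 / (1 - ρ) := by rw [tsum_geometric_of_lt_one h0 h1, one_div]
  linarith

lemma box_tail (ρ c : ℝ) (h0 : 0 ≤ ρ) (h1 : ρ < 1) (hc : 0 ≤ c) (i0 : Fin d) (V : Finset (Fin d)) (hV : i0 ∉ V)
    (κ : Fin d → ℕ) :
    ∑ p ∈ box m (insert i0 V) κ, (if m < ∑ i, p i then c * ρ ^ ((∑ i, p i) - d - m) else 0) ≤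
      ((m : ℝ) + 1) ^ V.card * (c * (d + 1 / (1 - ρ))) := by
  classical
  have h1' : 0 < 1 - ρ := by linarith
  induction V using Finset.induction_on generalizing κ with
  | empty =>
    rw [box_sum hV]
    simp only [box_empty, sum_singleton, card_empty, pow_zero, one_mul]
    have h2 : ∀ a : ℕ, ∑ i, Function.update κ i0 a i = a + ∑ i ∈ univ.erase i0, κ i := by
      intro a
      rw [← add_sum_erase univ _ (mem_univ i0)]
      congr 1
      · simp
      · apply sum_congr rfl; intro j hj; rw [Function.update_of_ne (ne_of_mem_erase hj)]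
    simp only [h2]
    have h3 : ∀ a : ℕ, (if m < a + ∑ i ∈ univ.erase i0, κ i then c * ρ ^ (a + ∑ i ∈ univ.erase i0, κ i - d - m) else 0)
        = c * (if m < a + ∑ i ∈ univ.erase i0, κ i then ρ ^ (a + ∑ i ∈ univ.erase i0, κ i - d - m) else 0) := by
      intro a; split_ifs <;> simp
    simp only [h3]
    rw [← mul_sum]
    exact mul_le_mul_of_nonneg_left (tail_sum ρ h0 h1 d m _ _) hc
  | insert i V hi ih =>
    have hne : i0 ≠ i := fun h => hV (by simp [h])
    have hV' : i0 ∉ V := fun h => hV (mem_insert_of_mem h)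
    have hi' : i ∉ insert i0 V := by simp [hi, hne.symm]
    rw [Finset.insert_comm, box_sum hi', card_insert_of_notMem hi]
    refine le_trans (sum_le_sum (fun a _ => ih hV' (Function.update κ i a))) ?_
    rw [sum_const, card_range, nsmul_eq_mul]
    push_cast
    rw [pow_succ]
    exact le_of_eq (by ring)

end Pool.Agent.H739R3.PLp
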