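import Mathlib

set_option autoImplicit false

/-! A digital `(0,m,d)`-net from polynomials: digits = Taylor coefficients at distinct points. -/

namespace Pool.Agent.H739R3.PLp

open Finset Polynomial

variable {b : ℕ} [Fact b.Prime] {d m : ℕ}

noncomputable def toPoly (c : Fin m → ZMod b) : (ZMod b)[X] := ∑ j : Fin m, C (c j) * X ^ (j : ℕ)

noncomputable def A (α : Fin d → ZMod b) (c : Fin m → ZMod b) (i : Fin d) (l : ℕ) : ZMod b :=
  (taylor (α i) (toPoly c)).coeff l

lemma toPoly_add (c c' : Fin m → ZMod b) : toPoly (c + c') = toPoly c + toPoly c' := by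
  simp [toPoly, add_mul, sum_add_distrib]

lemma A_add (α : Fin d → ZMod b) (c c' : Fin m → ZMod b) (i : Fin d) (l : ℕ) :
    A α (c + c') i l = A α c i l + A α c' i l := by
  simp [A, toPoly_add]

lemma toPoly_degree (c : Fin m → ZMod b) : (toPoly c).degree < m := degree_sum_fin_lt c

lemma toPoly_eq_zero {c : Fin m → ZMod b} (h : toPoly c = 0) : c = 0 := by
  funext j
  have h1 : (toPoly c).coeff j = c j := by
    simp only [toPoly, finset_sum_coeff, coeff_C_mul, coeff_X_pow]
    rw [sum_eq_single j]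
    · simp
    · intro i _ hij
      have : (j : ℕ) ≠ (i : ℕ) := fun h => hij (Fin.ext h.symm)
      simp [this]
    · simp
  rw [h] at h1
  simpa using h1.symm

lemma exists_toPoly {p : (ZMod b)[X]} (hp : p.degree < m) : ∃ c : Fin m → ZMod b, toPoly c = p := by
  refine ⟨fun j => p.coeff j, ?_⟩
  unfold toPoly
  rw [Fin.sum_univ_eq_sum_range (fun j => C (p.coeff j) * X ^ j) m]
  ext n
  simp only [finset_sum_coeff, coeff_C_mul, coeff_X_pow]
  by_cases hn : n < m
  · rw [sum_eq_single n]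
    · simp
    · intro i _ hi; simp [hi.symm]
    · intro h; exact absurd (mem_range.mpr hn) h
  · rw [sum_eq_zero]
    · symm
      apply coeff_eq_zero_of_degree_lt
      exact lt_of_lt_of_le hp (by exact_mod_cast (not_lt.mp hn))
    · intro i hi
      have : n ≠ i := by have := mem_range.mp hi; omega
      simp [this]

lemma pow_dvd_iff (r : ZMod b) (p : (ZMod b)[X]) (k : ℕ) :
    (X - C r) ^ k ∣ p ↔ ∀ l < k, (taylor r p).coeff l = 0 := by
  rw [← X_pow_dvd_iff, X_sub_C_pow_dvd_iff, taylor_apply]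

/-- injectivity: enough vanishing digits force `c = 0`. -/
lemma A_inj {α : Fin d → ZMod b} (hα : Function.Injective α) (c : Fin m → ZMod b)
    (k : Fin d → ℕ) (hk : m ≤ ∑ i, k i) (h : ∀ i, ∀ l < k i, A α c i l = 0) : c = 0 := by
  apply toPoly_eq_zero
  by_contra hne
  have h1 : ∀ i, (X - C (α i)) ^ (k i) ∣ toPoly c := fun i => (pow_dvd_iff _ _ _).mpr (h i)
  have h2 : ∏ i, (X - C (α i)) ^ (k i) ∣ toPoly c := by
    apply Finset.prod_dvd_of_coprime
    · intro i _ j _ hij
      apply IsCoprime.pow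
      exact (pairwise_coprime_X_sub_C hα) hij
    · intro i _; exact h1 i
  have h3 := degree_le_of_dvd h2 hne
  have h4 : (∏ i, (X - C (α i)) ^ (k i)).degree = ((∑ i, k i : ℕ) : WithBot ℕ) := by
    rw [degree_prod]
    simp [degree_pow, degree_X_sub_C]
  rw [h4] at h3
  have h5 := lt_of_le_of_lt h3 (toPoly_degree c)
  have h6 : (∑ i, k i) < m := by exact_mod_cast h5
  omega

/-- directions -/
lemma exists_dir {α : Fin d → ZMod b} (hα : Function.Injective α) 
    (k : Fin d → ℕ) (hk : ∑ i, k i ≤ m) (i0 : Fin d) (hi0 : 1 ≤ k i0) (t : ZMod b) :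
    ∃ e : Fin m → ZMod b, (∀ i, i ≠ i0 → ∀ l < k i, A α e i l = 0) ∧
      (∀ l < k i0 - 1, A α e i0 l = 0) ∧ A α e i0 (k i0 - 1) = t := by
  classical
  -- the cofactor
  set R : (ZMod b)[X] := ∏ i ∈ univ.erase i0, (X - C (α i)) ^ (k i) with hR
  have hR0 : R.eval (α i0) ≠ 0 := by
    rw [hR, eval_prod]
    apply prod_ne_zero_iff.mpr
    intro i hi
    simp only [eval_pow, eval_sub, eval_X, eval_C]
    apply pow_ne_zero
    intro h
    have : α i0 = α i := sub_eq_zero.mp h
    exact (ne_of_mem_erase hi) (hα this).symm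
  set p : (ZMod b)[X] := (X - C (α i0)) ^ (k i0 - 1) * (C (t / R.eval (α i0)) * R) with hp
  have hdeg : p.degree < m := by
    have hRdeg : R.degree = ((∑ i ∈ univ.erase i0, k i : ℕ) : WithBot ℕ) := by
      rw [hR, degree_prod]
      simp [degree_pow, degree_X_sub_C]
    have h1 : p.degree ≤ ((k i0 - 1 : ℕ) : WithBot ℕ) + ((0 : WithBot ℕ) + ((∑ i ∈ univ.erase i0, k i : ℕ) : WithBot ℕ)) := by
      rw [hp]
      refine le_trans (degree_mul_le _ _) (add_le_add ?_ (le_trans (degree_mul_le _ _) (add_le_add degree_C_le hRdeg.le)))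
      rw [degree_pow, degree_X_sub_C]; simp
    refine lt_of_le_of_lt h1 ?_
    have h2 : k i0 + ∑ i ∈ univ.erase i0, k i = ∑ i, k i := add_sum_erase univ k (mem_univ i0)
    have h3 : (k i0 - 1) + (0 + ∑ i ∈ univ.erase i0, k i) < m := by omega
    exact_mod_cast h3
  obtain ⟨e, he⟩ := exists_toPoly hdeg
  refine ⟨e, ?_, ?_, ?_⟩
  · intro i hi
    unfold A
    rw [he]
    apply (pow_dvd_iff _ _ _).mp
    rw [hp]
    apply Dvd.dvd.mul_left
    apply Dvd.dvd.mul_left
    rw [hR]
    exact dvd_prod_of_mem _ (mem_erase.mpr ⟨hi, mem_univ _⟩)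
  · unfold A
    rw [he]
    apply (pow_dvd_iff _ _ _).mp
    rw [hp]
    exact dvd_mul_right _ _
  · unfold A
    rw [he, hp]
    have h1 : taylor (α i0) ((X - C (α i0)) ^ (k i0 - 1) * (C (t / R.eval (α i0)) * R)) =
        X ^ (k i0 - 1) * taylor (α i0) (C (t / R.eval (α i0)) * R) := by
      rw [taylor_mul]
      congr 1
      rw [taylor_apply]
      simp
    rw [h1]
    have h2 := coeff_X_pow_mul (taylor (α i0) (C (t / R.eval (α i0)) * R)) (k i0 - 1) 0
    rw [zero_add] at h2
    rw [h2, taylor_coeff_zero]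
    simp [hR0]

end Pool.Agent.H739R3.PLp
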