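import Mathlib
import Pool.Agent.H739R3.PLp.Digits
import Pool.Agent.H739R3.PLp.Net
import Pool.Agent.H739R3.PLp.Iter

set_option autoImplicit false

/-! Moments of the local discrepancy of the randomly shifted net. -/

namespace Pool.Agent.H739R3.PLp

open Finset

variable {b d m : ℕ} [Fact b.Prime]

/-- extend the shift by zero -/
def ext0 (σ : Fin d × Fin m → ZMod b) (i : Fin d) (l : ℕ) : ZMod b :=
  if h : l < m then σ (i, ⟨l, h⟩) else 0

/-- shifted digits -/
noncomputable def dig (α : Fin d → ZMod b) (σ : Fin d × Fin m → ZMod b) (n : Fin m → ZMod b)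
    (i : Fin d) (l : ℕ) : ZMod b := A α n i l + ext0 σ i l

lemma ext0_shift (σ : Fin d × Fin m → ZMod b) (w : Fin d × Fin m) (t : ZMod b) (i : Fin d) (l : ℕ) :
    ext0 (σ + Pi.single w t) i l = ext0 σ i l + (if i = w.1 ∧ l = w.2 then t else 0) := by
  unfold ext0
  by_cases h : l < m
  · rw [dif_pos h, dif_pos h]
    simp only [Pi.add_apply, Pi.single_apply]
    congr 1
    obtain ⟨w1, w2⟩ := w
    by_cases h2 : i = w1 ∧ l = w2
    · obtain ⟨rfl, rfl⟩ := h2; simp
    · rw [if_neg h2, if_neg]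
      intro h3
      apply h2
      simp only [Prod.mk.injEq] at h3
      exact ⟨h3.1, by rw [← h3.2]⟩
  · rw [dif_neg h, dif_neg h, if_neg, add_zero]
    rintro ⟨_, h2⟩
    exact h (by rw [h2]; exact w.2.2)

noncomputable def T (α : Fin d → ZMod b) (y : Fin d → ℝ) (p : Fin d → ℕ) (σ : Fin d × Fin m → ZMod b) : ℝ :=
  ∑ n : Fin m → ZMod b, ∏ i, G (y i) (dig α σ n i) (p i)

lemma T_a (α : Fin d → ZMod b) (y : Fin d → ℝ) (p : Fin d → ℕ) (w : Fin d × Fin m) (hw : p w.1 ≤ w.2)
    (t : ZMod b) (σ : Fin d × Fin m → ZMod b) : T α y p (σ + Pi.single w t) = T α y p σ := by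
  unfold T
  apply sum_congr rfl; intro n _
  apply prod_congr rfl; intro i _
  apply G_congr
  intro l hl
  unfold dig
  rw [ext0_shift, if_neg, add_zero]
  rintro ⟨rfl, h2⟩
  omega

lemma T_b (α : Fin d → ZMod b) (y : Fin d → ℝ) (p : Fin d → ℕ) (w : Fin d × Fin m) (hw : p w.1 = w.2 + 1)
    (σ : Fin d × Fin m → ZMod b) : ∑ t : ZMod b, T α y p (σ + Pi.single w t) = 0 := by
  unfold T
  rw [sum_comm]
  apply sum_eq_zero; intro n _
  have h1 : ∀ t : ZMod b, ∏ i, G (y i) (dig α (σ + Pi.single w t) n i) (p i) =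
      G (y w.1) (dig α (σ + Pi.single w t) n w.1) (p w.1) * ∏ i ∈ univ.erase w.1, G (y i) (dig α σ n i) (p i) := by
    intro t
    rw [← mul_prod_erase univ _ (mem_univ w.1)]
    congr 1
    apply prod_congr rfl; intro i hi
    apply G_congr
    intro l hl
    unfold dig
    rw [ext0_shift, if_neg, add_zero]
    rintro ⟨h1, _⟩
    exact (ne_of_mem_erase hi) h1
  rw [sum_congr rfl (fun t _ => h1 t), ← sum_mul]
  obtain ⟨η, hη⟩ : ∃ η : ZMod b → ℕ → ZMod b, ∀ t : ZMod b, η t = dig α (σ + Pi.single w t) n w.1 :=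
    ⟨fun t => dig α (σ + Pi.single w t) n w.1, fun _ => rfl⟩
  have h2 : ∑ t : ZMod b, G (y w.1) (η t) ((w.2 : ℕ) + 1) = 0 := by
    have a1 : ∀ t : ZMod b, ∀ l < (w.2 : ℕ), η t l = dig α σ n w.1 l := by
      intro t l hl
      rw [hη]
      unfold dig
      rw [ext0_shift, if_neg, add_zero]
      rintro ⟨_, h2⟩; omega
    have a2 : ∀ t : ZMod b, η t (w.2 : ℕ) = dig α σ n w.1 (w.2 : ℕ) + t := by
      intro t
      rw [hη]
      unfold dig
      rw [ext0_shift, if_pos ⟨rfl, rfl⟩]; ring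
    exact sum_G_shift (y w.1) (dig α σ n w.1) (w.2 : ℕ) η a1 a2
  have h3 : ∑ t : ZMod b, G (y w.1) (dig α (σ + Pi.single w t) n w.1) (p w.1) = 0 := by
    rw [← h2]
    apply sum_congr rfl; intro t _
    rw [hη, hw]
  rw [h3, zero_mul]

lemma T_zero {α : Fin d → ZMod b} (hα : Function.Injective α) (y : Fin d → ℝ) (p : Fin d → ℕ)
    (h1 : p ≠ 0) (h2 : ∑ i, p i ≤ m) (σ : Fin d × Fin m → ZMod b) : T α y p σ = 0 := by
  obtain ⟨i0, hi0⟩ : ∃ i0, p i0 ≠ 0 := by
    by_contra hcon; push Not at hcon; exact h1 (funext hcon)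
  have hi1 : 1 ≤ p i0 := Nat.one_le_iff_ne_zero.mpr hi0
  choose e he1 he2 he3 using fun t => exists_dir hα p h2 i0 hi1 t
  have h3 : ∀ t : ZMod b, T α y p σ = ∑ n : Fin m → ZMod b, ∏ i, G (y i) (dig α σ (n + e t) i) (p i) := by
    intro t
    unfold T
    have h := Equiv.sum_comp (Equiv.addRight (e t)) (fun n : Fin m → ZMod b => ∏ i, G (y i) (dig α σ n i) (p i))
    simp only [Equiv.coe_addRight] at h
    rw [← h]
  have h4 : ∑ _t : ZMod b, T α y p σ = 0 := by
    rw [sum_congr rfl (fun t _ => h3 t), sum_comm]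
    apply sum_eq_zero; intro n _
    have h5 : ∀ t : ZMod b, ∏ i, G (y i) (dig α σ (n + e t) i) (p i) =
      G (y i0) (dig α σ (n + e t) i0) (p i0) * ∏ i ∈ univ.erase i0, G (y i) (dig α σ n i) (p i) := by
      intro t
      rw [← mul_prod_erase univ _ (mem_univ i0)]
      congr 1
      apply prod_congr rfl; intro i hi
      apply G_congr
      intro l hl
      unfold dig
      rw [A_add, he1 t i (ne_of_mem_erase hi) l hl, add_zero]
    rw [sum_congr rfl (fun t _ => h5 t), ← sum_mul]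
    have e6 : p i0 = (p i0 - 1) + 1 := by omega
    rw [e6, sum_G_shift (y i0) (dig α σ n i0) (p i0 - 1) (fun t => dig α σ (n + e t) i0), zero_mul]
    · intro t l hl
      unfold dig
      rw [A_add, he2 t l hl, add_zero]
    · intro t
      simp only [dig]
      rw [A_add, he3 t]; ring
  rw [sum_const, card_univ, ZMod.card, nsmul_eq_mul] at h4
  have hb : (b : ℝ) ≠ 0 := by exact_mod_cast (Fact.out : b.Prime).ne_zero
  exact (mul_eq_zero.mp h4).resolve_left hb

/-- the match set -/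
noncomputable def S (α : Fin d → ZMod b) (y : Fin d → ℝ) (p : Fin d → ℕ) (σ : Fin d × Fin m → ZMod b) :
    Finset (Fin m → ZMod b) := by
  classical
  exact univ.filter (fun n => ∀ i, ∀ l, l + 1 < p i → dig α σ n i l = tau b (y i) l)

lemma mem_S {α : Fin d → ZMod b} {y : Fin d → ℝ} {p : Fin d → ℕ} {σ : Fin d × Fin m → ZMod b}
    {n : Fin m → ZMod b} : n ∈ S α y p σ ↔ ∀ i, ∀ l, l + 1 < p i → dig α σ n i l = tau b (y i) l := by
  simp [S]

lemma abs_T_le (α : Fin d → ZMod b) (y : Fin d → ℝ) (p : Fin d → ℕ) (σ : Fin d × Fin m → ZMod b) :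
    |T α y p σ| ≤ ((S α y p σ).card : ℝ) := by
  classical
  unfold T
  have h1 : ∀ n : Fin m → ZMod b, |∏ i, G (y i) (dig α σ n i) (p i)| ≤ if n ∈ S α y p σ then 1 else 0 := by
    intro n
    split_ifs with h
    · rw [abs_prod]
      exact prod_le_one (fun i _ => abs_nonneg _) (fun i _ => abs_G_le _ _ _)
    · rw [mem_S] at h
      push Not at h
      obtain ⟨i, l, hl, hne⟩ := h
      have : G (y i) (dig α σ n i) (p i) = 0 := by
        have e : p i = (p i - 1) + 1 := by omega
        rw [e]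
        exact G_eq_zero_of_not_match ⟨l, by omega, hne⟩
      rw [prod_eq_zero (mem_univ i) this]; simp
  calc |∑ n, ∏ i, G (y i) (dig α σ n i) (p i)| ≤ ∑ n, |∏ i, G (y i) (dig α σ n i) (p i)| := abs_sum_le_sum_abs _ _
    _ ≤ ∑ n, if n ∈ S α y p σ then (1:ℝ) else 0 := sum_le_sum (fun n _ => h1 n)
    _ = ((S α y p σ).card : ℝ) := by simp

lemma card_S_le {α : Fin d → ZMod b} (hα : Function.Injective α) (y : Fin d → ℝ) (p : Fin d → ℕ)
    (h2 : m < ∑ i, p i) (σ : Fin d × Fin m → ZMod b) : (S α y p σ).card ≤ b ^ d := by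
  classical
  obtain ⟨i0, hi0⟩ : ∃ i0, p i0 ≠ 0 := by
    by_contra hcon; push Not at hcon
    have : ∑ i, p i = 0 := sum_eq_zero (fun i _ => hcon i)
    omega
  set J := ∑ i, (p i - 1) with hJ
  have hJ1 : ∑ i, p i ≤ J + d := by
    have : ∑ i, p i ≤ ∑ i : Fin d, ((p i - 1) + 1) := sum_le_sum (fun i _ => by omega)
    rw [sum_add_distrib] at this
    simpa using this
  set r := m - J with hr
  have hrd : r ≤ d := by omega
  have hcard : (S α y p σ).card ≤ b ^ r := by
    have h3 : (S α y p σ).card ≤ (univ : Finset (Fin r → ZMod b)).card := by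
      apply card_le_card_of_injOn (fun n => fun j : Fin r => A α n i0 (p i0 - 1 + j)) (fun _ _ => mem_univ _)
      intro n hn n' hn' heq
      have hn1 := mem_S.mp hn
      have hn2 := mem_S.mp hn'
      have hsub : ∀ i l, A α (n - n') i l = A α n i l - A α n' i l := by
        intro i l
        have := A_add α (n - n') n' i l
        rw [sub_add_cancel] at this
        rw [this]; ring
      have hzero : n - n' = 0 := by
        apply A_inj hα (n - n') (fun i => (p i - 1) + (if i = i0 then r else 0))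
        · rw [sum_add_distrib]; simp; omega
        · intro i l hl
          rw [hsub]
          by_cases hl2 : l + 1 < p i
          · have a1 := hn1 i l hl2
            have a2 := hn2 i l hl2
            unfold dig at a1 a2
            have : A α n i l + ext0 σ i l = A α n' i l + ext0 σ i l := by rw [a1, a2]
            rw [add_right_cancel this]; ring
          · by_cases hii : i = i0
            · subst hii
              simp only [if_true] at hl
              have hl3 : l - (p i - 1) < r := by omega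
              have := congrFun heq ⟨l - (p i - 1), hl3⟩
              simp only at this
              have e : p i - 1 + (l - (p i - 1)) = l := by omega
              rw [e] at this
              rw [this]; ring
            · simp only [if_neg hii] at hl; omega
      exact sub_eq_zero.mp hzero
    simpa [ZMod.card] using h3
  refine le_trans hcard ?_
  exact Nat.pow_le_pow_right (Fact.out : b.Prime).pos hrd

lemma card_fin_filter (k : ℕ) (hk : k ≤ m) : (univ.filter (fun l : Fin m => (l : ℕ) + 1 < k)).card = k - 1 := by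
  rw [card_filter, Fin.sum_univ_eq_sum_range (fun l => if l + 1 < k then 1 else 0) m, ← card_filter]
  have : (range m).filter (fun l => l + 1 < k) = range (k - 1) := by
    ext l; simp; omega
  rw [this, card_range]

lemma sum_card_S (α : Fin d → ZMod b) (y : Fin d → ℝ) (p : Fin d → ℕ)
    (hp : ∀ i, p i ≤ m) :
    (∑ σ : Fin d × Fin m → ZMod b, (S α y p σ).card) * b ^ (∑ i, (p i - 1)) = b ^ m * b ^ (d * m) := by
  classical
  have h1 : ∑ σ : Fin d × Fin m → ZMod b, (S α y p σ).card =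
      ∑ n : Fin m → ZMod b, (univ.filter (fun σ : Fin d × Fin m → ZMod b => n ∈ S α y p σ)).card := by
    have : ∀ σ : Fin d × Fin m → ZMod b, (S α y p σ).card = ∑ n : Fin m → ZMod b, if n ∈ S α y p σ then 1 else 0 := by
      intro σ; simp
    simp only [this]
    rw [sum_comm]
    apply sum_congr rfl; intro n _
    rw [card_filter]
  have h2 : ∀ n : Fin m → ZMod b,
      (univ.filter (fun σ : Fin d × Fin m → ZMod b => n ∈ S α y p σ)).card * b ^ (∑ i, (p i - 1)) = b ^ (d * m) := by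
    intro n
    have e1 : univ.filter (fun σ : Fin d × Fin m → ZMod b => n ∈ S α y p σ) =
        Fintype.piFinset (fun w : Fin d × Fin m => if (w.2 : ℕ) + 1 < p w.1 then {tau b (y w.1) w.2 - A α n w.1 w.2} else univ) := by
      ext σ
      rw [mem_filter, Fintype.mem_piFinset, mem_S]
      constructor
      · rintro ⟨_, h⟩ ⟨i, l⟩
        simp only
        split_ifs with hc
        · have := h i l hc
          unfold dig ext0 at this
          rw [dif_pos l.2] at this
          rw [mem_singleton, ← this]; simp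
        · exact mem_univ _
      · intro h
        refine ⟨mem_univ _, fun i l hl => ?_⟩
        have hlm : l < m := by have := hp i; omega
        have := h (i, ⟨l, hlm⟩)
        simp only at this
        rw [if_pos hl, mem_singleton] at this
        unfold dig ext0
        rw [dif_pos hlm, this]; ring
    rw [e1, Fintype.card_piFinset]
    have e2 : ∀ w : Fin d × Fin m, (if (w.2 : ℕ) + 1 < p w.1 then {tau b (y w.1) w.2 - A α n w.1 w.2} else (univ : Finset (ZMod b))).card
        = if (w.2 : ℕ) + 1 < p w.1 then 1 else b := by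
      intro w; split_ifs <;> simp [ZMod.card]
    rw [prod_congr rfl (fun w _ => e2 w)]
    have e3 : b ^ (∑ i, (p i - 1)) = ∏ w : Fin d × Fin m, (if (w.2 : ℕ) + 1 < p w.1 then b else 1) := by
      rw [Fintype.prod_prod_type, ← prod_pow_eq_pow_sum]
      apply prod_congr rfl; intro i _
      rw [prod_ite, prod_const, prod_const, one_pow, mul_one]
      simp only
      rw [card_fin_filter (p i) (hp i)]
    rw [e3, ← prod_mul_distrib]
    have e4 : ∀ w : Fin d × Fin m, ((if (w.2 : ℕ) + 1 < p w.1 then 1 else b) * (if (w.2 : ℕ) + 1 < p w.1 then b else 1)) = b := by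
      intro w; split_ifs <;> simp
    rw [prod_congr rfl (fun w _ => e4 w)]
    simp
  rw [h1, sum_mul, sum_congr rfl (fun n _ => h2 n)]
  simp [ZMod.card]

lemma pow_bound {c A : ℝ} (h0 : 0 ≤ c) (h : c ≤ A) {q : ℕ} (hq : 1 ≤ q) :
    c ^ (2 * q) ≤ A ^ (2 * q - 1) * c := by
  obtain ⟨r, rfl⟩ : ∃ r, q = r + 1 := ⟨q - 1, by omega⟩
  have e : 2 * (r + 1) - 1 = 2 * r + 1 := by omega
  rw [e]
  calc c ^ (2 * (r + 1)) = c ^ (2 * r + 1) * c := by ring
    _ ≤ A ^ (2 * r + 1) * c := by gcongr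

lemma arith_case1 (x : ℝ) (hx : 1 ≤ x) (d m q : ℕ) (hq : 1 ≤ q) (X : ℝ) (hX : X ≤ x ^ d * x ^ (d * m)) :
    x ^ (d * (2 * q - 1)) * X ≤ x ^ (d * m) * x ^ (2 * d * q) := by
  have hx0 : 0 < x := by linarith
  calc x ^ (d * (2 * q - 1)) * X ≤ x ^ (d * (2 * q - 1)) * (x ^ d * x ^ (d * m)) := by gcongr
    _ = x ^ (d * m) * x ^ (2 * d * q) := by
        rw [← pow_add, ← pow_add, ← pow_add]; congr 1
        obtain ⟨r, rfl⟩ : ∃ r, q = r + 1 := ⟨q - 1, by omega⟩
        have : 2 * (r + 1) - 1 = 2 * r + 1 := by omega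
        rw [this]; ring

lemma arith_case2 (x ρ X : ℝ) (hx : 1 ≤ x) (hρ0 : 0 ≤ ρ) (d m q J e : ℕ) (hX0 : 0 ≤ X)
    (hsum : X * x ^ J = x ^ m * x ^ (d * m)) (hJe : m + e ≤ J) (hρ : 1 / x ≤ ρ ^ q) :
    x ^ (d * (2 * q - 1)) * X ≤ x ^ (d * m) * (x ^ (2 * d * q) * ρ ^ (e * q)) := by
  have hx0 : 0 < x := by linarith
  have hXe : X * x ^ e ≤ x ^ (d * m) := by
    have h5 : X * x ^ (m + e) ≤ X * x ^ J := 
      mul_le_mul_of_nonneg_left (pow_le_pow_right₀ hx hJe) hX0
    rw [hsum, pow_add] at h5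
    have hbm : 0 < x ^ m := by positivity
    have h6 : x ^ m * (X * x ^ e) ≤ x ^ m * x ^ (d * m) := by linarith
    exact le_of_mul_le_mul_left h6 hbm
  have h7 : 1 ≤ x ^ e * ρ ^ (e * q) := by
    have : x ^ e * ρ ^ (e * q) = (x * ρ ^ q) ^ e := by rw [mul_comm e q, pow_mul, mul_pow]
    rw [this]
    apply one_le_pow₀
    rw [div_le_iff₀ hx0] at hρ
    linarith
  have h8 : X ≤ x ^ (d * m) * ρ ^ (e * q) := by
    calc X = X * 1 := (mul_one X).symm
      _ ≤ X * (x ^ e * ρ ^ (e * q)) := mul_le_mul_of_nonneg_left h7 hX0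
      _ = (X * x ^ e) * ρ ^ (e * q) := by ring
      _ ≤ x ^ (d * m) * ρ ^ (e * q) := mul_le_mul_of_nonneg_right hXe (by positivity)
  have h9 : x ^ (d * (2 * q - 1)) ≤ x ^ (2 * d * q) := by
    apply pow_le_pow_right₀ hx
    calc d * (2 * q - 1) ≤ d * (2 * q) := Nat.mul_le_mul_left _ (by omega)
      _ = 2 * d * q := by ring
  calc x ^ (d * (2 * q - 1)) * X ≤ x ^ (2 * d * q) * (x ^ (d * m) * ρ ^ (e * q)) := 
        mul_le_mul h9 h8 hX0 (by positivity)
    _ = _ := by ring

lemma Bd_T {q : ℕ} (hq : 1 ≤ q) {α : Fin d → ZMod b} (hα : Function.Injective α) (y : Fin d → ℝ) (p : Fin d → ℕ)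
    (hp : ∀ i, p i ≤ m) (h2 : m < ∑ i, p i) (ρ : ℝ) (hρ0 : 0 ≤ ρ) (hρ1 : ρ ≤ 1) (hρ : 1 / (b : ℝ) ≤ ρ ^ q) :
    Bd q (T (m := m) α y p) ((b : ℝ) ^ (2 * d) * ρ ^ ((∑ i, p i) - d - m)) := by
  unfold Bd
  have hb1 : (1 : ℝ) ≤ b := by exact_mod_cast (Fact.out : b.Prime).one_le
  have hb0 : (0 : ℝ) < b := by linarith
  have hcardΩ : (Fintype.card (Fin d × Fin m → ZMod b) : ℝ) = (b : ℝ) ^ (d * m) := by simp [ZMod.card]
  rw [hcardΩ]
  have hX : ∀ σ : Fin d × Fin m → ZMod b, T α y p σ ^ (2 * q) ≤ (b : ℝ) ^ (d * (2 * q - 1)) * ((S α y p σ).card : ℝ) := by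
    intro σ
    have h3 : T α y p σ ^ (2 * q) = |T α y p σ| ^ (2 * q) := ((even_two_mul q).pow_abs _).symm
    rw [h3, pow_mul (b : ℝ) d (2 * q - 1)]
    have hc : ((S α y p σ).card : ℝ) ≤ (b : ℝ) ^ d := by exact_mod_cast card_S_le hα y p h2 σ
    exact le_trans (pow_le_pow_left₀ (abs_nonneg _) (abs_T_le α y p σ) _) (pow_bound (Nat.cast_nonneg _) hc hq)
  refine le_trans (sum_le_sum (fun σ _ => hX σ)) ?_
  rw [← mul_sum]
  set J := ∑ i, (p i - 1) with hJ
  have hJ1 : ∑ i, p i ≤ J + d := by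
    have : ∑ i, p i ≤ ∑ i : Fin d, ((p i - 1) + 1) := sum_le_sum (fun i _ => by omega)
    rw [sum_add_distrib] at this
    simpa using this
  have hsum : (∑ σ : Fin d × Fin m → ZMod b, ((S α y p σ).card : ℝ)) * (b : ℝ) ^ J = (b : ℝ) ^ m * (b : ℝ) ^ (d * m) := by
    exact_mod_cast sum_card_S α y p hp
  set X := ∑ σ : Fin d × Fin m → ZMod b, ((S α y p σ).card : ℝ) with hXdef
  have hX0 : 0 ≤ X := sum_nonneg (fun _ _ => Nat.cast_nonneg _)
  rw [mul_pow, ← pow_mul, ← pow_mul]
  rcases le_or_gt (∑ i, p i) (d + m) with hcase | hcase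
  · have e0 : (∑ i, p i) - d - m = 0 := by omega
    rw [e0, zero_mul, pow_zero, mul_one]
    have hXle : X ≤ (b : ℝ) ^ d * (b : ℝ) ^ (d * m) := by
      calc X ≤ ∑ _σ : Fin d × Fin m → ZMod b, (b : ℝ) ^ d := by
            apply sum_le_sum; intro σ _
            exact_mod_cast card_S_le hα y p h2 σ
        _ = _ := by rw [sum_const, card_univ, nsmul_eq_mul, hcardΩ, mul_comm]
    exact arith_case1 _ hb1 d m q hq X hXle
  · exact arith_case2 _ ρ X hb1 hρ0 d m q J _ hX0 hsum (by omega) hρ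

/-- The main moment bound. -/
theorem core {q : ℕ} (hq : 1 ≤ q) {α : Fin d → ZMod b} (hα : Function.Injective α) (hd : 1 ≤ d)
    (y : Fin d → ℝ) (hy0 : ∀ i, 0 ≤ y i) (hy1 : ∀ i, y i ≤ 1) :
    Bd q (fun σ : Fin d × Fin m → ZMod b => (∑ n : Fin m → ZMod b, ∏ i, H (y i) (dig α σ n i) m) - (b : ℝ) ^ m * ∏ i, y i)
      ((4 ^ (q + 1)) ^ d * (((m : ℝ) + 1) ^ (d - 1) * ((b : ℝ) ^ (2 * d) * (d + 2 * q)))) := by
  classical
  set ρ : ℝ := 1 - 1 / (2 * q) with hρdef
  have hq' : (1 : ℝ) ≤ q := by exact_mod_cast hq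
  have hρ0 : 0 ≤ ρ := by
    rw [hρdef, sub_nonneg, div_le_one (by linarith)]; linarith
  have hρ1 : ρ < 1 := by
    rw [hρdef]; have : 0 < 1 / (2 * (q:ℝ)) := by positivity
    linarith
  have hb2 : (2 : ℝ) ≤ b := by exact_mod_cast (Fact.out : b.Prime).two_le
  have hρq : 1 / (b : ℝ) ≤ ρ ^ q := by
    have h1 := one_add_mul_le_pow (a := -(1 / (2 * (q:ℝ)))) (by
      have : 1 / (2 * (q:ℝ)) ≤ 1 := by rw [div_le_one (by linarith)]; linarith
      linarith) q
    have h2 : (1:ℝ) + q * (-(1 / (2 * (q:ℝ)))) = 1 / 2 := by field_simp; ring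
    rw [h2] at h1
    have h3 : (1 + -(1 / (2 * (q:ℝ)))) = ρ := by rw [hρdef]; ring
    rw [h3] at h1
    refine le_trans ?_ h1
    apply one_div_le_one_div_of_le (by norm_num) hb2
  set T' : (Fin d → ℕ) → ((Fin d × Fin m → ZMod b) → ℝ) := fun p σ => if p = 0 then 0 else T α y p σ with hT'
  set B : (Fin d → ℕ) → ℝ := fun p => if m < ∑ i, p i then (b : ℝ) ^ (2 * d) * ρ ^ ((∑ i, p i) - d - m) else 0 with hB
  have key := iter hq T' B ?_ ?_ ?_ ?_ univ (fun _ => 0) (fun _ => Nat.zero_le _)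
  · have hbox : box m (univ : Finset (Fin d)) (fun _ => 0) = Fintype.piFinset (fun _ => range (m + 1)) := by
      simp [box]
    have e1 : (fun σ : Fin d × Fin m → ZMod b => (∑ n : Fin m → ZMod b, ∏ i, H (y i) (dig α σ n i) m) - (b : ℝ) ^ m * ∏ i, y i)
        = fun σ => ∑ p ∈ box m univ (fun _ => 0), T' p σ := by
      funext σ
      have e2 : ∑ n : Fin m → ZMod b, ∏ i, H (y i) (dig α σ n i) m = ∑ p ∈ box m univ (fun _ => 0), T α y p σ := by
        rw [hbox]
        unfold T
        rw [sum_comm]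
        apply sum_congr rfl; intro n _
        rw [← prod_univ_sum]
        apply prod_congr rfl; intro i _
        rw [sum_G]
      have h0mem : (0 : Fin d → ℕ) ∈ box m univ (fun _ => 0) := by rw [mem_box]; simp
      have e3 : T α y 0 σ = (b : ℝ) ^ m * ∏ i, y i := by
        unfold T
        have : ∀ n : Fin m → ZMod b, ∏ i, G (y i) (dig α σ n i) ((0 : Fin d → ℕ) i) = ∏ i, y i := by
          intro n; apply prod_congr rfl; intro i _
          simp only [Pi.zero_apply, G, H, Z, pow_zero, mul_one, Nat.cast_zero, sub_zero]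
          rw [min_eq_right (hy1 i), max_eq_right (hy0 i)]
        rw [sum_congr rfl (fun n _ => this n)]
        simp [ZMod.card]
      rw [e2, ← add_sum_erase _ _ h0mem, ← add_sum_erase (box m univ (fun _ => 0)) (fun p => T' p σ) h0mem, e3]
      simp only [hT', if_true, zero_add, add_sub_cancel_left]
      apply sum_congr rfl; intro p hp
      rw [if_neg (ne_of_mem_erase hp)]
    rw [e1]
    refine key.mono (mul_nonneg (by positivity) (sum_nonneg (fun p _ => ?_))) ?_
    · simp only [hB]; split_ifs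
      · positivity
      · exact le_rfl
    · rw [card_univ, Fintype.card_fin]
      apply mul_le_mul_of_nonneg_left _ (by positivity)
      have i0 : Fin d := ⟨0, hd⟩
      have hins : (univ : Finset (Fin d)) = insert i0 (univ.erase i0) := (insert_erase (mem_univ i0)).symm
      rw [hins]
      have h5 := box_tail (m := m) ρ ((b : ℝ) ^ (2 * d)) hρ0 hρ1 (by positivity) i0 (univ.erase i0) (notMem_erase _ _) (fun _ => 0)
      refine le_trans h5 ?_
      rw [card_erase_of_mem (mem_univ i0), card_univ, Fintype.card_fin]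
      have h6 : 1 / (1 - ρ) = 2 * q := by rw [hρdef]; field_simp; ring
      rw [h6]
  · intro p w hw t σ
    simp only [hT']
    split_ifs
    · rfl
    · exact T_a α y p w hw t σ
  · intro p w hw σ
    simp only [hT']
    have hp : p ≠ 0 := by intro h; rw [h] at hw; simp at hw
    simp only [if_neg hp]
    exact T_b α y p w hw σ
  · intro p; simp only [hB]; split_ifs
    · positivity
    · exact le_rfl
  · intro p hp
    simp only [hT', hB]
    split_ifs with h1 h2 h3
    · exact Bd_zero hq (by positivity)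
    · exact Bd_zero hq le_rfl
    · exact Bd_T hq hα y p hp h3 ρ hρ0 hρ1.le hρq
    · have : (T (m := m) α y p) = fun _ => 0 := by
        funext σ; exact T_zero hα y p h1 (not_lt.mp h3) σ
      show Bd q (fun σ => T α y p σ) 0
      rw [this]; exact Bd_zero hq le_rfl

end Pool.Agent.H739R3.PLp
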