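import Mathlib
import Pool.Agent.H739R3.PLp.Core

set_option autoImplicit false

/-! The `N`-point set and its anchored discrepancies. -/

namespace Pool.Agent.H739R3.PLp

open Finset

variable {b d m : ℕ} [Fact b.Prime]

lemma Z_lt (δ : ℕ → ZMod b) (k : ℕ) : Z δ k < b ^ k := by
  induction k with
  | zero => simp [Z]
  | succ k ih =>
    have hv : (δ k).val < b := ZMod.val_lt _
    simp only [Z]
    calc b * Z δ k + (δ k).val < b * Z δ k + b := by omega
      _ = b * (Z δ k + 1) := by ring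
      _ ≤ b * b ^ k := Nat.mul_le_mul_left _ ih
      _ = b ^ (k + 1) := by ring

lemma Z_inj {δ δ' : ℕ → ZMod b} {k : ℕ} (h : Z δ k = Z δ' k) : ∀ l < k, δ l = δ' l := by
  induction k with
  | zero => intro l hl; omega
  | succ k ih =>
    have hv : (δ k).val < b := ZMod.val_lt _
    have hv' : (δ' k).val < b := ZMod.val_lt _
    have hb : 0 < b := (Fact.out : b.Prime).pos
    simp only [Z] at h
    have h1 : Z δ k = Z δ' k := by
      have a1 : (b * Z δ k + (δ k).val) / b = Z δ k := by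
        rw [Nat.mul_add_div hb, Nat.div_eq_of_lt hv, add_zero]
      have a2 : (b * Z δ' k + (δ' k).val) / b = Z δ' k := by
        rw [Nat.mul_add_div hb, Nat.div_eq_of_lt hv', add_zero]
      rw [← a1, ← a2, h]
    have h2 : (δ k).val = (δ' k).val := by rw [h1] at h; omega
    intro l hl
    rcases Nat.lt_or_ge l k with hlk | hlk
    · exact ih h1 l hlk
    · obtain rfl : l = k := by omega
      exact ZMod.val_injective b h2

/-- integer coordinate -/
noncomputable def zc (α : Fin d → ZMod b) (σ : Fin d × Fin m → ZMod b) (n : Fin m → ZMod b) (i : Fin d) : ℕ :=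
  Z (dig α σ n i) m

lemma zc_lt (α : Fin d → ZMod b) (σ : Fin d × Fin m → ZMod b) (n : Fin m → ZMod b) (i : Fin d) :
    zc α σ n i < b ^ m := Z_lt _ _

lemma zc_inj {α : Fin d → ZMod b} (hα : Function.Injective α) (σ : Fin d × Fin m → ZMod b) (i : Fin d) :
    Function.Injective (fun n => zc α σ n i) := by
  intro n n' h
  have h1 := Z_inj h
  have hsub : ∀ i l, A α (n - n') i l = A α n i l - A α n' i l := by
    intro i l
    have := A_add α (n - n') n' i l
    rw [sub_add_cancel] at this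
    rw [this]; ring
  have : n - n' = 0 := by
    apply A_inj hα (n - n') (fun j => if j = i then m else 0)
    · simp
    · intro j l hl
      by_cases hj : j = i
      · subst hj
        simp only [if_true] at hl
        have := h1 l hl
        unfold dig at this
        rw [hsub, add_right_cancel this]; ring
      · simp only [if_neg hj] at hl; omega
  exact sub_eq_zero.mp this

lemma card_zc_lt {α : Fin d → ZMod b} (hα : Function.Injective α) (σ : Fin d × Fin m → ZMod b) (i : Fin d)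
    {N : ℕ} (hN : N ≤ b ^ m) : (univ.filter (fun n => zc α σ n i < N)).card = N := by
  classical
  have h1 : univ.image (fun n => zc α σ n i) = range (b ^ m) := by
    apply eq_of_subset_of_card_le
    · intro k hk
      obtain ⟨n, _, rfl⟩ := mem_image.mp hk
      exact mem_range.mpr (zc_lt _ _ _ _)
    · rw [card_image_of_injective _ (zc_inj hα σ i)]
      simp [ZMod.card]
  have h2 : (univ.filter (fun n => zc α σ n i < N)).image (fun n => zc α σ n i) = range N := by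
    ext k
    simp only [mem_image, mem_filter, mem_univ, true_and, mem_range]
    constructor
    · rintro ⟨n, h, rfl⟩; exact h
    · intro hk
      have : k ∈ univ.image (fun n => zc α σ n i) := by rw [h1]; exact mem_range.mpr (by omega)
      obtain ⟨n, _, hn⟩ := mem_image.mp this
      exact ⟨n, by rw [hn]; exact hk, hn⟩
  rw [← card_image_of_injective (univ.filter (fun n => zc α σ n i < N)) (zc_inj hα σ i), h2, card_range]

lemma H_int (δ : ℕ → ZMod b) (Y : ℕ) :
    H ((Y : ℝ) / (b : ℝ) ^ m) δ m = if Z δ m < Y then 1 else 0 := by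
  have hb : (0 : ℝ) < (b : ℝ) ^ m := by
    have : (0 : ℝ) < b := by exact_mod_cast (Fact.out : b.Prime).pos
    positivity
  unfold H
  rw [div_mul_cancel₀ _ hb.ne']
  split_ifs with h
  · have : (1 : ℝ) ≤ (Y : ℝ) - (Z δ m : ℝ) := by
      have : ((Z δ m : ℕ) : ℝ) + 1 ≤ Y := by exact_mod_cast h
      linarith
    rw [min_eq_left this]; simp
  · have : (Y : ℝ) - (Z δ m : ℝ) ≤ 0 := by
      have : (Y : ℝ) ≤ ((Z δ m : ℕ) : ℝ) := by exact_mod_cast not_lt.mp h
      linarith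
    rw [min_eq_right (by linarith), max_eq_left this]

lemma prod_diff_le {ι : Type*} [DecidableEq ι] (s : Finset ι) (u v : ι → ℝ) (hu0 : ∀ i, 0 ≤ u i) (hu1 : ∀ i, u i ≤ 1)
    (hv0 : ∀ i, 0 ≤ v i) (hv1 : ∀ i, v i ≤ 1) : |∏ i ∈ s, u i - ∏ i ∈ s, v i| ≤ ∑ i ∈ s, |u i - v i| := by
  induction s using Finset.induction_on with
  | empty => simp
  | insert i s hi ih =>
    rw [prod_insert hi, prod_insert hi, sum_insert hi]
    have e : u i * ∏ j ∈ s, u j - v i * ∏ j ∈ s, v j = (u i - v i) * ∏ j ∈ s, u j + v i * (∏ j ∈ s, u j - ∏ j ∈ s, v j) := by ring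
    rw [e]
    refine le_trans (abs_add_le _ _) ?_
    rw [abs_mul, abs_mul]
    have h1 : |∏ j ∈ s, u j| ≤ 1 := by
      rw [abs_of_nonneg (prod_nonneg (fun j _ => hu0 j))]
      exact prod_le_one (fun j _ => hu0 j) (fun j _ => hu1 j)
    have h2 : |v i| ≤ 1 := by rw [abs_of_nonneg (hv0 i)]; exact hv1 i
    have h3 : |u i - v i| * |∏ j ∈ s, u j| ≤ |u i - v i| * 1 := mul_le_mul_of_nonneg_left h1 (abs_nonneg _)
    have h4 : |v i| * |∏ j ∈ s, u j - ∏ j ∈ s, v j| ≤ 1 * |∏ j ∈ s, u j - ∏ j ∈ s, v j| := 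
      mul_le_mul_of_nonneg_right h2 (abs_nonneg _)
    linarith

/-- real point -/
noncomputable def pt (α : Fin d → ZMod b) (i0 : Fin d) (N : ℕ) (σ : Fin d × Fin m → ZMod b) (n : Fin m → ZMod b) (i : Fin d) : ℝ :=
  if i = i0 then (zc α σ n i : ℝ) / N else (zc α σ n i : ℝ) / (b : ℝ) ^ m

/-- anchored discrepancy -/
noncomputable def DD (α : Fin d → ZMod b) (i0 : Fin d) (N : ℕ) (w : Fin d → ℝ) (σ : Fin d × Fin m → ZMod b) : ℝ :=
  (∑ n ∈ univ.filter (fun n => zc α σ n i0 < N), ∏ i, (if pt α i0 N σ n i < w i then (1:ℝ) else 0)) - N * ∏ i, w i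

lemma Bd_DD {q : ℕ} (hq : 1 ≤ q) {α : Fin d → ZMod b} (hα : Function.Injective α) (i0 : Fin d) {N : ℕ}
    (hN1 : 1 ≤ N) (hN : N ≤ b ^ m) (w : Fin d → ℝ) (hw0 : ∀ i, 0 ≤ w i) (hw1 : ∀ i, w i ≤ 1) :
    Bd q (DD (m := m) α i0 N w) (4 * ((4 ^ (q + 1)) ^ d * (((m : ℝ) + 1) ^ (d - 1) * ((b : ℝ) ^ (2 * d) * (d + 2 * q))))) := by
  classical
  set K : ℝ := (4 ^ (q + 1)) ^ d * (((m : ℝ) + 1) ^ (d - 1) * ((b : ℝ) ^ (2 * d) * (d + 2 * q))) with hK
  have hd : 1 ≤ d := by have := i0.2; omega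
  have hb2 : (2 : ℝ) ≤ b := by exact_mod_cast (Fact.out : b.Prime).two_le
  have hbm : (0 : ℝ) < (b : ℝ) ^ m := by positivity
  have hNR : (0 : ℝ) < N := by exact_mod_cast hN1
  have hNb : (N : ℝ) ≤ (b : ℝ) ^ m := by exact_mod_cast hN
  -- integer thresholds
  set Y : Fin d → ℕ := fun i => if i = i0 then ⌈w i * N⌉₊ else ⌈w i * (b : ℝ) ^ m⌉₊ with hY
  set u : Fin d → ℝ := fun i => if i = i0 then w i * N / (b : ℝ) ^ m else w i with hu
  have hYm : ∀ i, (Y i : ℝ) ≤ (b : ℝ) ^ m := by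
    intro i
    simp only [hY]
    split_ifs with h
    · have : ⌈w i * N⌉₊ ≤ N := by
        apply Nat.ceil_le.mpr
        calc w i * N ≤ 1 * N := by gcongr; exact hw1 i
          _ = N := one_mul _
      exact le_trans (by exact_mod_cast this) hNb
    · have : ⌈w i * (b : ℝ) ^ m⌉₊ ≤ b ^ m := by
        apply Nat.ceil_le.mpr
        push_cast
        calc w i * (b : ℝ) ^ m ≤ 1 * (b : ℝ) ^ m := by gcongr; exact hw1 i
          _ = (b : ℝ) ^ m := one_mul _
      exact_mod_cast this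
  have hu0 : ∀ i, 0 ≤ u i := by
    intro i; simp only [hu]; split_ifs
    · have := hw0 i; positivity
    · exact hw0 i
  have hu1 : ∀ i, u i ≤ 1 := by
    intro i; simp only [hu]; split_ifs
    · rw [div_le_one hbm]
      calc w i * N ≤ 1 * N := by gcongr; exact hw1 i
        _ ≤ (b : ℝ) ^ m := by rw [one_mul]; exact hNb
    · exact hw1 i
  have hv0 : ∀ i, 0 ≤ (Y i : ℝ) / (b : ℝ) ^ m := fun i => by positivity
  have hv1 : ∀ i, (Y i : ℝ) / (b : ℝ) ^ m ≤ 1 := fun i => by rw [div_le_one hbm]; exact hYm i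
  have huv : ∀ i, |(Y i : ℝ) / (b : ℝ) ^ m - u i| ≤ 1 / (b : ℝ) ^ m := by
    intro i
    have key : ∀ x : ℝ, 0 ≤ x → |(⌈x⌉₊ : ℝ) / (b : ℝ) ^ m - x / (b : ℝ) ^ m| ≤ 1 / (b : ℝ) ^ m := by
      intro x hx
      rw [← sub_div, abs_div, abs_of_pos hbm]
      apply div_le_div_of_nonneg_right _ hbm.le
      rw [abs_le]
      have h1 := Nat.le_ceil x
      have h2 := Nat.ceil_lt_add_one hx
      constructor <;> linarith
    simp only [hY, hu]
    split_ifs with h
    · exact key _ (mul_nonneg (hw0 i) hNR.le)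
    · have := key (w i * (b : ℝ) ^ m) (mul_nonneg (hw0 i) hbm.le)
      rwa [mul_div_cancel_right₀ _ hbm.ne'] at this
  have hprodu : (b : ℝ) ^ m * ∏ i, u i = N * ∏ i, w i := by
    rw [← mul_prod_erase univ u (mem_univ i0), ← mul_prod_erase univ w (mem_univ i0)]
    have : ∏ i ∈ univ.erase i0, u i = ∏ i ∈ univ.erase i0, w i := by
      apply prod_congr rfl; intro i hi
      simp only [hu]; rw [if_neg (ne_of_mem_erase hi)]
    rw [this]
    simp only [hu, if_true]
    field_simp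
  have hdiff : |(b : ℝ) ^ m * ∏ i, ((Y i : ℝ) / (b : ℝ) ^ m) - N * ∏ i, w i| ≤ d := by
    rw [← hprodu, ← mul_sub, abs_mul, abs_of_pos hbm]
    have h1 := prod_diff_le univ (fun i => (Y i : ℝ) / (b : ℝ) ^ m) u hv0 hv1 hu0 hu1
    have h2 : ∑ i, |(Y i : ℝ) / (b : ℝ) ^ m - u i| ≤ d * (1 / (b : ℝ) ^ m) := by
      calc ∑ i, |(Y i : ℝ) / (b : ℝ) ^ m - u i| ≤ ∑ _i : Fin d, 1 / (b : ℝ) ^ m := sum_le_sum (fun i _ => huv i)
        _ = d * (1 / (b : ℝ) ^ m) := by simp
    calc (b : ℝ) ^ m * |∏ i, (Y i : ℝ) / (b : ℝ) ^ m - ∏ i, u i| ≤ (b : ℝ) ^ m * (d * (1 / (b : ℝ) ^ m)) := by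
          apply mul_le_mul_of_nonneg_left (le_trans h1 h2) hbm.le
      _ = d := by field_simp
  -- the count
  have hcount : ∀ σ : Fin d × Fin m → ZMod b,
      (∑ n ∈ univ.filter (fun n => zc α σ n i0 < N), ∏ i, (if pt α i0 N σ n i < w i then (1:ℝ) else 0)) =
      ∑ n : Fin m → ZMod b, ∏ i, H ((Y i : ℝ) / (b : ℝ) ^ m) (dig α σ n i) m := by
    intro σ
    rw [sum_filter]
    apply sum_congr rfl; intro n _
    simp only [H_int]
    have e1 : ∀ i, i ≠ i0 → ((pt α i0 N σ n i < w i) ↔ Z (dig α σ n i) m < Y i) := by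
      intro i hi
      simp only [pt, if_neg hi, hY]
      rw [div_lt_iff₀ hbm, Nat.lt_ceil]; rfl
    have e2 : (pt α i0 N σ n i0 < w i0) ↔ Z (dig α σ n i0) m < Y i0 := by
      simp only [pt, if_true, hY]
      rw [div_lt_iff₀ hNR, Nat.lt_ceil]; rfl
    have e3 : Z (dig α σ n i0) m < Y i0 → zc α σ n i0 < N := by
      intro h
      have : Y i0 ≤ N := by
        simp only [hY, if_true]
        apply Nat.ceil_le.mpr
        calc w i0 * N ≤ 1 * N := by gcongr; exact hw1 i0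
          _ = N := one_mul _
      exact lt_of_lt_of_le h this
    have e4 : ∀ i, (if pt α i0 N σ n i < w i then (1:ℝ) else 0) = if Z (dig α σ n i) m < Y i then (1:ℝ) else 0 := by
      intro i
      by_cases hi : i = i0
      · subst hi; simp only [e2]
      · simp only [e1 i hi]
    rw [prod_congr rfl (fun i _ => e4 i)]
    split_ifs with h
    · rfl
    · symm
      apply prod_eq_zero (mem_univ i0)
      rw [if_neg (fun hc => h (e3 hc))]
  have hcore := core (m := m) hq hα hd (fun i => (Y i : ℝ) / (b : ℝ) ^ m) hv0 hv1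
  rw [← hK] at hcore
  have hKd : (d : ℝ) ^ (2 * q) ≤ K ^ q := by
    rw [pow_mul]
    have hdK : (d : ℝ) ^ 2 ≤ K := by
      have a1 : (1:ℝ) ≤ (4 ^ (q + 1)) ^ d := one_le_pow₀ (one_le_pow₀ (by norm_num))
      have a2 : (1:ℝ) ≤ ((m : ℝ) + 1) ^ (d - 1) := one_le_pow₀ (by have : (0:ℝ) ≤ m := Nat.cast_nonneg _
                                                                   linarith)
      have a3 : (d : ℝ) ^ 2 ≤ (b : ℝ) ^ (2 * d) := by
        rw [mul_comm, pow_mul]
        have : (d : ℝ) ≤ (b : ℝ) ^ d := by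
          calc (d : ℝ) ≤ 2 ^ d := by exact_mod_cast Nat.lt_two_pow_self.le
            _ ≤ (b : ℝ) ^ d := by gcongr
        gcongr
      have a4 : (1:ℝ) ≤ (d : ℝ) + 2 * q := by
        have : (1:ℝ) ≤ d := by exact_mod_cast hd
        have : (0:ℝ) ≤ q := Nat.cast_nonneg _
        linarith
      calc (d : ℝ) ^ 2 ≤ (b : ℝ) ^ (2 * d) := a3
        _ = 1 * (1 * ((b : ℝ) ^ (2 * d) * 1)) := by ring
        _ ≤ K := by rw [hK]; gcongr
    exact pow_le_pow_left₀ (by positivity) hdK q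
  unfold Bd at *
  have hpt : ∀ σ : Fin d × Fin m → ZMod b, DD α i0 N w σ ^ (2 * q) ≤
      2 ^ (2 * q - 1) * (((∑ n : Fin m → ZMod b, ∏ i, H ((Y i : ℝ) / (b : ℝ) ^ m) (dig α σ n i) m) 
        - (b : ℝ) ^ m * ∏ i, ((Y i : ℝ) / (b : ℝ) ^ m)) ^ (2 * q) + (d : ℝ) ^ (2 * q)) := by
    intro σ
    set a := (∑ n : Fin m → ZMod b, ∏ i, H ((Y i : ℝ) / (b : ℝ) ^ m) (dig α σ n i) m) 
        - (b : ℝ) ^ m * ∏ i, ((Y i : ℝ) / (b : ℝ) ^ m) with ha
    set c := (b : ℝ) ^ m * ∏ i, ((Y i : ℝ) / (b : ℝ) ^ m) - N * ∏ i, w i with hc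
    have e : DD α i0 N w σ = a + c := by
      unfold DD; rw [hcount, ha, hc]; ring
    have h1 : |a + c| ≤ |a| + d := le_trans (abs_add_le _ _) (by linarith)
    have h2 : DD α i0 N w σ ^ (2 * q) = |a + c| ^ (2 * q) := by rw [e, (even_two_mul q).pow_abs]
    rw [h2]
    have h3 : |a + c| ^ (2 * q) ≤ (|a| + d) ^ (2 * q) := pow_le_pow_left₀ (abs_nonneg _) h1 _
    refine le_trans h3 ?_
    have h4 := add_pow_le (abs_nonneg a) (Nat.cast_nonneg d) (2 * q)
    rw [(even_two_mul q).pow_abs] at h4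
    exact h4
  refine le_trans (sum_le_sum (fun σ _ => hpt σ)) ?_
  rw [← mul_sum, sum_add_distrib, sum_const, card_univ, nsmul_eq_mul]
  set n0 : ℝ := (Fintype.card (Fin d × Fin m → ZMod b) : ℝ) with hn0
  have hn00 : 0 ≤ n0 := Nat.cast_nonneg _
  have hK0 : 0 ≤ K := by rw [hK]; positivity
  calc (2:ℝ) ^ (2 * q - 1) * (_ + n0 * (d : ℝ) ^ (2 * q)) ≤ 2 ^ (2 * q - 1) * (n0 * K ^ q + n0 * K ^ q) := by
        apply mul_le_mul_of_nonneg_left _ (by positivity)
        apply add_le_add hcore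
        exact mul_le_mul_of_nonneg_left hKd hn00
    _ = n0 * ((2 ^ (2 * q - 1) * 2) * K ^ q) := by ring
    _ = n0 * (4 * K) ^ q := by
        have e : (2:ℝ) ^ (2 * q - 1) * 2 = 4 ^ q := by
          rw [← pow_succ, show 2 * q - 1 + 1 = 2 * q by omega, pow_mul]; norm_num
        rw [e, ← mul_pow]

end Pool.Agent.H739R3.PLp
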