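import Mathlib
import Pool.Agent.H739R3.PLp.Points

set_option autoImplicit false

/-! From anchored to periodic boxes, and integration. -/

namespace Pool.Agent.H739R3.PLp

open Finset MeasureTheory

lemma Bd_absSum {Ω : Type*} [Fintype Ω] {ι : Type*} [Fintype ι] {q : ℕ} (hq : 1 ≤ q) (f : Ω → ℝ) (g : ι → Ω → ℝ) {A : ℝ}
    (hf : ∀ σ, |f σ| ≤ ∑ c, |g c σ|) (hg : ∀ c, Bd q (g c) A) :
    Bd q f ((Fintype.card ι : ℝ) ^ 2 * A) := by
  unfold Bd at *
  set k : ℝ := (Fintype.card ι : ℝ) with hk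
  have hk0 : 0 ≤ k := Nat.cast_nonneg _
  have h1 : ∀ σ, f σ ^ (2 * q) ≤ k ^ (2 * q - 1) * ∑ c, g c σ ^ (2 * q) := by
    intro σ
    rw [← (even_two_mul q).pow_abs]
    have h2 : |f σ| ^ (2 * q) ≤ (∑ c, |g c σ|) ^ (2 * q) := pow_le_pow_left₀ (abs_nonneg _) (hf σ) _
    have h3 := pow_sum_le_card_mul_sum_pow (s := (univ : Finset ι)) (f := fun c => |g c σ|) (fun c _ => abs_nonneg _) (2 * q - 1)
    have e : 2 * q - 1 + 1 = 2 * q := by omega
    rw [e, card_univ] at h3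
    refine le_trans h2 (le_trans h3 ?_)
    apply mul_le_mul_of_nonneg_left _ (by positivity)
    apply sum_le_sum; intro c _
    rw [(even_two_mul q).pow_abs]
  refine le_trans (sum_le_sum (fun σ _ => h1 σ)) ?_
  rw [← mul_sum, sum_comm]
  have h4 : ∑ c, ∑ σ, g c σ ^ (2 * q) ≤ k * ((Fintype.card Ω : ℝ) * A ^ q) := by
    calc ∑ c, ∑ σ, g c σ ^ (2 * q) ≤ ∑ _c : ι, (Fintype.card Ω : ℝ) * A ^ q := sum_le_sum (fun c _ => hg c)
      _ = _ := by rw [sum_const, card_univ, nsmul_eq_mul]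
  calc k ^ (2 * q - 1) * ∑ c, ∑ σ, g c σ ^ (2 * q) ≤ k ^ (2 * q - 1) * (k * ((Fintype.card Ω : ℝ) * A ^ q)) :=
        mul_le_mul_of_nonneg_left h4 (by positivity)
    _ = (Fintype.card Ω : ℝ) * ((k ^ (2 * q - 1) * k) * A ^ q) := by ring
    _ = _ := by
        rw [← pow_succ, show 2 * q - 1 + 1 = 2 * q by omega, pow_mul, ← mul_pow]

/-- coefficient and endpoint of the three anchored pieces -/
noncomputable def co (x y : ℝ) : Fin 3 → ℝ := ![1, -1, if y < x then 1 else 0]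
noncomputable def wt (x y : ℝ) : Fin 3 → ℝ := ![y, x, 1]

lemma piece_ind (x y z : ℝ) (hz : z < 1) (hx : 0 ≤ x) (hy : 0 ≤ y) :
    (if (x ≤ y ∧ x ≤ z ∧ z < y) ∨ (y < x ∧ (z < y ∨ x ≤ z)) then (1:ℝ) else 0) =
      ∑ c, co x y c * (if z < wt x y c then (1:ℝ) else 0) := by
  simp only [Fin.sum_univ_three, co, wt]
  simp only [Matrix.cons_val_zero, Matrix.cons_val_one, Matrix.cons_val, if_pos hz]
  by_cases h1 : x ≤ y <;> by_cases h2 : x ≤ z <;> by_cases h3 : z < y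
  all_goals
    first
    | (have h1' : ¬ y < x := not_lt.mpr h1
       have h2' : (z < x) ↔ ¬ x ≤ z := by rw [not_le]
       simp [h1, h2, h3, h1', h2'])
    | (have h1' : y < x := not_le.mp h1
       have h2' : (z < x) ↔ ¬ x ≤ z := by rw [not_le]
       simp [h1, h2, h3, h1', h2'])
  all_goals (try linarith)

lemma piece_len (x y : ℝ) :
    (if x ≤ y then y - x else 1 - x + y) = ∑ c, co x y c * wt x y c := by
  simp only [Fin.sum_univ_three, co, wt]
  simp only [Matrix.cons_val_zero, Matrix.cons_val_one, Matrix.cons_val]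
  by_cases h1 : x ≤ y
  · rw [if_pos h1, if_neg (not_lt.mpr h1)]; ring
  · rw [if_neg h1, if_pos (not_le.mp h1)]; ring

lemma abs_co_le (x y : ℝ) (c : Fin 3) : |co x y c| ≤ 1 := by
  fin_cases c
  · simp [co]
  · simp [co]
  · simp only [co]; simp only [Fin.reduceFinMk, Matrix.cons_val]; split_ifs <;> simp

lemma wt_mem (x y : ℝ) (hx : 0 ≤ x) (hx1 : x ≤ 1) (hy : 0 ≤ y) (hy1 : y ≤ 1) (c : Fin 3) :
    0 ≤ wt x y c ∧ wt x y c ≤ 1 := by
  fin_cases c <;> simp [wt, hx, hx1, hy, hy1]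

open Classical in
/-- periodic local discrepancy of a finite set -/
noncomputable def LD {d : ℕ} (P : Finset (Fin d → ℝ)) (N : ℕ) (x y : Fin d → ℝ) : ℝ :=
  (∑ z ∈ P, if (∀ i : Fin d, (x i ≤ y i ∧ x i ≤ z i ∧ z i < y i) ∨ (y i < x i ∧ (z i < y i ∨ x i ≤ z i))) then (1:ℝ) else 0)
    - N * ∏ i : Fin d, (if x i ≤ y i then y i - x i else 1 - x i + y i)

variable {b d m : ℕ} [Fact b.Prime]

noncomputable def PP (α : Fin d → ZMod b) (i0 : Fin d) (N : ℕ) (σ : Fin d × Fin m → ZMod b) : Finset (Fin d → ℝ) := by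
  classical
  exact (univ.filter (fun n => zc α σ n i0 < N)).image (pt α i0 N σ)

lemma pt_inj {α : Fin d → ZMod b} (hα : Function.Injective α) (i0 : Fin d) {N : ℕ} (hN1 : 1 ≤ N)
    (σ : Fin d × Fin m → ZMod b) : Function.Injective (pt α i0 N σ) := by
  intro n n' h
  apply zc_inj hα σ i0
  have := congrFun h i0
  simp only [pt, if_true] at this
  have hN : (N : ℝ) ≠ 0 := by have : N ≠ 0 := by omega
                              exact_mod_cast this
  field_simp at this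
  show zc α σ n i0 = zc α σ n' i0
  exact_mod_cast this

lemma card_PP {α : Fin d → ZMod b} (hα : Function.Injective α) (i0 : Fin d) {N : ℕ} (hN1 : 1 ≤ N) (hN : N ≤ b ^ m)
    (σ : Fin d × Fin m → ZMod b) : (PP α i0 N σ).card = N := by
  classical
  unfold PP
  rw [card_image_of_injective _ (pt_inj hα i0 hN1 σ), card_zc_lt hα σ i0 hN]

lemma pt_mem (α : Fin d → ZMod b) (i0 : Fin d) {N : ℕ} (hN1 : 1 ≤ N)
    (σ : Fin d × Fin m → ZMod b) (n : Fin m → ZMod b) (h : zc α σ n i0 < N) (i : Fin d) :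
    pt α i0 N σ n i ∈ Set.Ico (0:ℝ) 1 := by
  have hbm : (0 : ℝ) < (b : ℝ) ^ m := by
    have : (0 : ℝ) < b := by exact_mod_cast (Fact.out : b.Prime).pos
    positivity
  have hNR : (0 : ℝ) < N := by exact_mod_cast hN1
  unfold pt
  split_ifs with hi
  · subst hi
    refine ⟨by positivity, ?_⟩
    rw [div_lt_one hNR]; exact_mod_cast h
  · refine ⟨by positivity, ?_⟩
    rw [div_lt_one hbm]; exact_mod_cast zc_lt α σ n i

lemma PP_mem (α : Fin d → ZMod b) (i0 : Fin d) {N : ℕ} (hN1 : 1 ≤ N)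
    (σ : Fin d × Fin m → ZMod b) : ∀ z ∈ PP α i0 N σ, ∀ i, z i ∈ Set.Ico (0:ℝ) 1 := by
  classical
  intro z hz i
  unfold PP at hz
  obtain ⟨n, hn, rfl⟩ := mem_image.mp hz
  exact pt_mem α i0 hN1 σ n (mem_filter.mp hn).2 i

lemma LD_eq {α : Fin d → ZMod b} (hα : Function.Injective α) (i0 : Fin d) {N : ℕ} (hN1 : 1 ≤ N)
    (x y : Fin d → ℝ) (hx : ∀ i, x i ∈ Set.Ico (0:ℝ) 1) (hy : ∀ i, y i ∈ Set.Ico (0:ℝ) 1) (σ : Fin d × Fin m → ZMod b) :
    LD (PP α i0 N σ) N x y = ∑ c : Fin d → Fin 3, (∏ i, co (x i) (y i) (c i)) * DD α i0 N (fun i => wt (x i) (y i) (c i)) σ := by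
  classical
  unfold LD PP
  rw [sum_image (fun n _ n' _ h => pt_inj hα i0 hN1 σ h)]
  have h1 : ∀ n ∈ univ.filter (fun n : Fin m → ZMod b => zc α σ n i0 < N),
      (if (∀ i : Fin d, (x i ≤ y i ∧ x i ≤ pt α i0 N σ n i ∧ pt α i0 N σ n i < y i) ∨ (y i < x i ∧ (pt α i0 N σ n i < y i ∨ x i ≤ pt α i0 N σ n i))) then (1:ℝ) else 0)
      = ∑ c : Fin d → Fin 3, (∏ i, co (x i) (y i) (c i)) * ∏ i, (if pt α i0 N σ n i < wt (x i) (y i) (c i) then (1:ℝ) else 0) := by
    intro n hn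
    have hn' := (mem_filter.mp hn).2
    have e1 : (if (∀ i : Fin d, (x i ≤ y i ∧ x i ≤ pt α i0 N σ n i ∧ pt α i0 N σ n i < y i) ∨ (y i < x i ∧ (pt α i0 N σ n i < y i ∨ x i ≤ pt α i0 N σ n i))) then (1:ℝ) else 0)
        = ∏ i, (if (x i ≤ y i ∧ x i ≤ pt α i0 N σ n i ∧ pt α i0 N σ n i < y i) ∨ (y i < x i ∧ (pt α i0 N σ n i < y i ∨ x i ≤ pt α i0 N σ n i)) then (1:ℝ) else 0) := by
      split_ifs with h
      · symm; apply prod_eq_one; intro i _; rw [if_pos (h i)]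
      · push Not at h
        obtain ⟨i, hi⟩ := h
        symm; apply prod_eq_zero (mem_univ i)
        rw [if_neg]
        intro hc
        rcases hc with ⟨a1, a2, a3⟩ | ⟨a1, a2⟩
        · exact absurd a3 (not_lt.mpr (hi.1 a1 a2))
        · have := hi.2 a1
          rcases a2 with a2 | a2
          · exact absurd a2 (not_lt.mpr this.1)
          · exact absurd a2 (not_le.mpr this.2)
    rw [e1]
    have e2 : ∀ i, (if (x i ≤ y i ∧ x i ≤ pt α i0 N σ n i ∧ pt α i0 N σ n i < y i) ∨ (y i < x i ∧ (pt α i0 N σ n i < y i ∨ x i ≤ pt α i0 N σ n i)) then (1:ℝ) else 0)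
        = ∑ c, co (x i) (y i) c * (if pt α i0 N σ n i < wt (x i) (y i) c then (1:ℝ) else 0) := fun i =>
      piece_ind (x i) (y i) _ (pt_mem α i0 hN1 σ n hn' i).2 (hx i).1 (hy i).1
    rw [prod_congr rfl (fun i _ => e2 i), prod_univ_sum, Fintype.piFinset_univ]
    apply sum_congr rfl; intro c _
    rw [prod_mul_distrib]
  rw [sum_congr rfl h1, sum_comm]
  have h2 : ∏ i : Fin d, (if x i ≤ y i then y i - x i else 1 - x i + y i) =
      ∑ c : Fin d → Fin 3, (∏ i, co (x i) (y i) (c i)) * ∏ i, wt (x i) (y i) (c i) := by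
    rw [prod_congr rfl (fun i _ => piece_len (x i) (y i)), prod_univ_sum, Fintype.piFinset_univ]
    apply sum_congr rfl; intro c _
    rw [prod_mul_distrib]
  rw [h2, mul_sum, ← sum_sub_distrib]
  apply sum_congr rfl; intro c _
  unfold DD
  rw [← mul_sum]
  ring

lemma Bd_LD {q : ℕ} (hq : 1 ≤ q) {α : Fin d → ZMod b} (hα : Function.Injective α) (i0 : Fin d) {N : ℕ}
    (hN1 : 1 ≤ N) (hN : N ≤ b ^ m) (x y : Fin d → ℝ) (hx : ∀ i, x i ∈ Set.Ico (0:ℝ) 1) (hy : ∀ i, y i ∈ Set.Ico (0:ℝ) 1) :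
    Bd q (fun σ : Fin d × Fin m → ZMod b => LD (PP α i0 N σ) N x y)
      ((3 ^ d) ^ 2 * (4 * ((4 ^ (q + 1)) ^ d * (((m : ℝ) + 1) ^ (d - 1) * ((b : ℝ) ^ (2 * d) * (d + 2 * q)))))) := by
  have h := Bd_absSum hq (fun σ : Fin d × Fin m → ZMod b => LD (PP α i0 N σ) N x y)
    (fun (c : Fin d → Fin 3) σ => DD α i0 N (fun i => wt (x i) (y i) (c i)) σ) 
    (A := (4 * ((4 ^ (q + 1)) ^ d * (((m : ℝ) + 1) ^ (d - 1) * ((b : ℝ) ^ (2 * d) * (d + 2 * q)))))) ?_ ?_
  · simpa using h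
  · intro σ
    rw [LD_eq hα i0 hN1 x y hx hy σ]
    refine le_trans (abs_sum_le_sum_abs _ _) ?_
    apply sum_le_sum; intro c _
    rw [abs_mul]
    have : |∏ i, co (x i) (y i) (c i)| ≤ 1 := by
      rw [abs_prod]; exact prod_le_one (fun i _ => abs_nonneg _) (fun i _ => abs_co_le _ _ _)
    calc |∏ i, co (x i) (y i) (c i)| * |DD α i0 N (fun i => wt (x i) (y i) (c i)) σ| ≤ 1 * |DD α i0 N (fun i => wt (x i) (y i) (c i)) σ| :=
          mul_le_mul_of_nonneg_right this (abs_nonneg _)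
      _ = _ := one_mul _
  · intro c
    apply Bd_DD hq hα i0 hN1 hN
    · intro i; exact (wt_mem (x i) (y i) (hx i).1 (hx i).2.le (hy i).1 (hy i).2.le (c i)).1
    · intro i; exact (wt_mem (x i) (y i) (hx i).1 (hx i).2.le (hy i).1 (hy i).2.le (c i)).2

/-! ### integration -/

lemma exists_integral_le {Ω X : Type*} [Fintype Ω] [Nonempty Ω] [MeasurableSpace X] (ν : Measure X) [IsProbabilityMeasure ν]
    (f : Ω → X → ℝ) (hf : ∀ σ, Integrable (f σ) ν) (c : ℝ)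
    (h : ∀ᵐ z ∂ν, ∑ σ, f σ z ≤ (Fintype.card Ω : ℝ) * c) : ∃ σ, ∫ z, f σ z ∂ν ≤ c := by
  by_contra hcon
  push Not at hcon
  have h1 : (Fintype.card Ω : ℝ) * c < ∑ σ, ∫ z, f σ z ∂ν := by
    calc (Fintype.card Ω : ℝ) * c = ∑ _σ : Ω, c := by rw [sum_const, card_univ, nsmul_eq_mul]
      _ < _ := sum_lt_sum_of_nonempty univ_nonempty (fun σ _ => hcon σ)
  have h2 : ∑ σ, ∫ z, f σ z ∂ν ≤ (Fintype.card Ω : ℝ) * c := by
    rw [← integral_finset_sum _ (fun σ _ => hf σ)]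
    calc ∫ z, ∑ σ, f σ z ∂ν ≤ ∫ _z, (Fintype.card Ω : ℝ) * c ∂ν := 
          integral_mono_ae (integrable_finset_sum _ (fun σ _ => hf σ)) (integrable_const _) h
      _ = _ := by simp
  linarith

lemma measurable_LD (P : Finset (Fin d → ℝ)) (N : ℕ) :
    Measurable (fun v : (Fin d → ℝ) × (Fin d → ℝ) => LD P N v.1 v.2) := by
  classical
  have m1 : ∀ i : Fin d, Measurable (fun v : (Fin d → ℝ) × (Fin d → ℝ) => v.1 i) := fun i =>
    (measurable_pi_apply i).comp measurable_fst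
  have m2 : ∀ i : Fin d, Measurable (fun v : (Fin d → ℝ) × (Fin d → ℝ) => v.2 i) := fun i =>
    (measurable_pi_apply i).comp measurable_snd
  unfold LD
  apply Measurable.sub
  · apply Finset.measurable_sum
    intro z _
    apply Measurable.ite _ measurable_const measurable_const
    have : {v : (Fin d → ℝ) × (Fin d → ℝ) | ∀ i : Fin d, (v.1 i ≤ v.2 i ∧ v.1 i ≤ z i ∧ z i < v.2 i) ∨ (v.2 i < v.1 i ∧ (z i < v.2 i ∨ v.1 i ≤ z i))}
      = ⋂ i : Fin d, ({v | v.1 i ≤ v.2 i} ∩ ({v | v.1 i ≤ z i} ∩ {v | z i < v.2 i})) ∪ ({v | v.2 i < v.1 i} ∩ ({v | z i < v.2 i} ∪ {v | v.1 i ≤ z i})) := by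
      ext v; simp
    rw [this]
    apply MeasurableSet.iInter; intro i
    exact ((measurableSet_le (m1 i) (m2 i)).inter ((measurableSet_le (m1 i) measurable_const).inter (measurableSet_lt measurable_const (m2 i)))).union
      ((measurableSet_lt (m2 i) (m1 i)).inter ((measurableSet_lt measurable_const (m2 i)).union (measurableSet_le (m1 i) measurable_const)))
  · apply Measurable.const_mul
    apply Finset.measurable_prod
    intro i _
    apply Measurable.ite (measurableSet_le (m1 i) (m2 i))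
    · exact (m2 i).sub (m1 i)
    · exact (measurable_const.sub (m1 i)).add (m2 i)

lemma abs_LD_le (P : Finset (Fin d → ℝ)) (N : ℕ) (x y : Fin d → ℝ) (hx : ∀ i, x i ∈ Set.Ico (0:ℝ) 1) (hy : ∀ i, y i ∈ Set.Ico (0:ℝ) 1) :
    |LD P N x y| ≤ P.card + N := by
  classical
  unfold LD
  have h1 : |∑ z ∈ P, if (∀ i : Fin d, (x i ≤ y i ∧ x i ≤ z i ∧ z i < y i) ∨ (y i < x i ∧ (z i < y i ∨ x i ≤ z i))) then (1:ℝ) else 0| ≤ P.card := by
    refine le_trans (abs_sum_le_sum_abs _ _) ?_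
    calc _ ≤ ∑ z ∈ P, (1:ℝ) := by
          apply sum_le_sum; intro z _; split_ifs <;> simp
      _ = P.card := by simp
  have h2 : |(N : ℝ) * ∏ i : Fin d, (if x i ≤ y i then y i - x i else 1 - x i + y i)| ≤ N := by
    rw [abs_mul, Nat.abs_cast, abs_prod]
    have : ∏ i : Fin d, |(if x i ≤ y i then y i - x i else 1 - x i + y i)| ≤ 1 := by
      apply prod_le_one (fun i _ => abs_nonneg _)
      intro i _
      have a1 := (hx i).1; have a2 := (hx i).2; have a3 := (hy i).1; have a4 := (hy i).2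
      split_ifs with h
      · rw [abs_le]; constructor <;> linarith
      · push Not at h
        rw [abs_le]; constructor <;> linarith
    calc (N : ℝ) * ∏ i : Fin d, |(if x i ≤ y i then y i - x i else 1 - x i + y i)| ≤ N * 1 := by
          apply mul_le_mul_of_nonneg_left this (Nat.cast_nonneg _)
      _ = N := mul_one _
  refine le_trans (abs_sub _ _) ?_
  linarith

/-- unit cube -/
def cube (d : ℕ) : Set (Fin d → ℝ) := Set.pi Set.univ (fun _ : Fin d => Set.Ico (0 : ℝ) 1)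

lemma measurableSet_cube : MeasurableSet (cube d) := MeasurableSet.univ_pi (fun _ => measurableSet_Ico)

lemma mem_cube {x : Fin d → ℝ} (h : x ∈ cube d) : ∀ i, x i ∈ Set.Ico (0:ℝ) 1 := fun i => h i (Set.mem_univ i)

instance : IsProbabilityMeasure ((volume : Measure (Fin d → ℝ)).restrict (cube d)) := by
  constructor
  rw [Measure.restrict_apply_univ]
  unfold cube
  rw [Real.volume_pi_Ico]
  simp

theorem exists_good {q : ℕ} (hq : 1 ≤ q) {α : Fin d → ZMod b} (hα : Function.Injective α) (i0 : Fin d) {N : ℕ}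
    (hN1 : 1 ≤ N) (hN : N ≤ b ^ m) (p : ℝ) (hp0 : 0 < p) (hp : p ≤ 2 * q) (M : ℝ) (hM : 0 < M)
    (hM2 : (3 ^ d) ^ 2 * (4 * ((4 ^ (q + 1)) ^ d * (((m : ℝ) + 1) ^ (d - 1) * ((b : ℝ) ^ (2 * d) * (d + 2 * q))))) ≤ M ^ 2) :
    ∃ P : Finset (Fin d → ℝ), P.card = N ∧ (∀ z ∈ P, ∀ i, z i ∈ Set.Ico (0:ℝ) 1) ∧
      ∫ x in cube d, ∫ y in cube d, |LD P N x y| ^ p ≤ 2 * M ^ p := by
  classical
  set μ := (volume : Measure (Fin d → ℝ)).restrict (cube d) with hμ
  have hae : ∀ Q : (Fin d → ℝ) × (Fin d → ℝ) → Prop, (∀ v : (Fin d → ℝ) × (Fin d → ℝ), (∀ i, v.1 i ∈ Set.Ico (0:ℝ) 1) → (∀ i, v.2 i ∈ Set.Ico (0:ℝ) 1) → Q v) →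
      ∀ᵐ v ∂(μ.prod μ), Q v := by
    intro Q hQ
    rw [hμ, Measure.prod_restrict]
    apply ae_restrict_of_forall_mem (measurableSet_cube.prod measurableSet_cube)
    intro v hv
    exact hQ v (mem_cube hv.1) (mem_cube hv.2)
  set f : (Fin d × Fin m → ZMod b) → (Fin d → ℝ) × (Fin d → ℝ) → ℝ := fun σ v => |LD (PP α i0 N σ) N v.1 v.2| ^ p with hf
  have hint : ∀ σ, Integrable (f σ) (μ.prod μ) := by
    intro σ
    apply Integrable.of_bound (((measurable_LD (PP α i0 N σ) N).abs.pow_const p).aestronglyMeasurable) (((PP α i0 N σ).card + N : ℝ) ^ p)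
    apply hae
    intro v h1 h2
    show ‖|LD (PP α i0 N σ) N v.1 v.2| ^ p‖ ≤ _
    rw [Real.norm_of_nonneg (by positivity)]
    exact Real.rpow_le_rpow (abs_nonneg _) (abs_LD_le _ _ _ _ h1 h2) hp0.le
  have hMp : 0 < M ^ p := Real.rpow_pos_of_pos hM p
  obtain ⟨σ, hσ⟩ := exists_integral_le (μ.prod μ) f hint (2 * M ^ p) (by
    apply hae
    intro v h1 h2
    have hB := (Bd_LD (m := m) hq hα i0 hN1 hN v.1 v.2 h1 h2).mono (by positivity) hM2
    unfold Bd at hB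
    have h3 : ∀ σ : Fin d × Fin m → ZMod b, f σ v ≤ M ^ p * (1 + LD (PP α i0 N σ) N v.1 v.2 ^ (2 * q) / (M ^ 2) ^ q) := by
      intro σ
      show |LD (PP α i0 N σ) N v.1 v.2| ^ p ≤ _
      set t := |LD (PP α i0 N σ) N v.1 v.2| with ht
      have ht0 : 0 ≤ t := abs_nonneg _
      have e1 : LD (PP α i0 N σ) N v.1 v.2 ^ (2 * q) / (M ^ 2) ^ q = (t / M) ^ (2 * q) := by
        rw [← (even_two_mul q).pow_abs, ← ht, div_pow, ← pow_mul]
      rw [e1]
      have e2 : t ^ p = M ^ p * (t / M) ^ p := by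
        rw [Real.div_rpow ht0 hM.le]; field_simp
      rw [e2]
      apply mul_le_mul_of_nonneg_left _ hMp.le
      have hr0 : 0 ≤ t / M := by positivity
      rcases le_total (t / M) 1 with h | h
      · have := Real.rpow_le_one hr0 h hp0.le
        have h5 : 0 ≤ (t / M) ^ (2 * q) := by positivity
        linarith
      · have : (t / M) ^ p ≤ (t / M) ^ ((2 * q : ℕ) : ℝ) := Real.rpow_le_rpow_of_exponent_le h (by push_cast; exact hp)
        rw [Real.rpow_natCast] at this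
        linarith
    refine le_trans (sum_le_sum (fun σ _ => h3 σ)) ?_
    rw [← mul_sum, sum_add_distrib, ← sum_div, sum_const, card_univ, nsmul_eq_mul, mul_one]
    have h6 : (∑ σ : Fin d × Fin m → ZMod b, LD (PP α i0 N σ) N v.1 v.2 ^ (2 * q)) / (M ^ 2) ^ q ≤ (Fintype.card (Fin d × Fin m → ZMod b) : ℝ) := by
      rw [div_le_iff₀ (by positivity)]; exact hB
    calc M ^ p * ((Fintype.card (Fin d × Fin m → ZMod b) : ℝ) + (∑ σ : Fin d × Fin m → ZMod b, LD (PP α i0 N σ) N v.1 v.2 ^ (2 * q)) / (M ^ 2) ^ q)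
        ≤ M ^ p * ((Fintype.card (Fin d × Fin m → ZMod b) : ℝ) + (Fintype.card (Fin d × Fin m → ZMod b) : ℝ)) := by
          apply mul_le_mul_of_nonneg_left _ hMp.le; linarith
      _ = _ := by ring)
  refine ⟨PP α i0 N σ, card_PP hα i0 hN1 hN σ, PP_mem α i0 hN1 σ, ?_⟩
  rw [integral_prod _ (hint σ)] at hσ
  exact hσ

end Pool.Agent.H739R3.PLp
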